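import Pool.Agent.MP_3ee8cb_gt.CR.Defs

namespace Pool.Agent.MP_3ee8cb_gt.TB

open Pool.Agent.MP_3ee8cb_gt.CR

variable {n : ℕ}

/-- Fields of vector valued bilinear maps. -/
abbrev Chr (n : ℕ) := E n → E n →L[ℝ] E n →L[ℝ] E n

/-- `C` is the field of Christoffel symbols (Levi-Civita connection) of `h`. -/
def IsChr (h : Met n) (C : Chr n) : Prop := ∀ x u v w, 2 * h x (C x u v) w =
  fderiv ℝ h x u v w + fderiv ℝ h x v u w - fderiv ℝ h x w u v

/-- The curvature tensor `R(u, v) w` at `x`. -/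
noncomputable def Rm (C : Chr n) (x u v w : E n) : E n :=
  fderiv ℝ C x u v w - fderiv ℝ C x v u w + C x u (C x v w) - C x v (C x u w)

/-- All sectional curvatures of `h` are at most `-a ^ 2`. -/
def CurvLe (h : Met n) (a : ℝ) : Prop := ∃ C, IsChr h C ∧ ∀ x u v,
  h x (Rm C x u v v) u ≤ -a ^ 2 * (h x u u * h x v v - h x u v ^ 2)

end Pool.Agent.MP_3ee8cb_gt.TB
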