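import Pool.Agent.MP_3ee8cb_gt.CR.SpecA
import Pool.Agent.MP_3ee8cb_gt.TB.Defs

/-! From the curvature tensor to the hinge inequality: statements of the rows. -/

namespace Pool.Agent.MP_3ee8cb_gt.TB

open Pool.Agent.MP_3ee8cb_gt.CR Set

variable {n : ℕ}

/-- The hinge inequality for curvature at most `-a ^ 2`. -/
def HingeP (h : Met n) (Ψ : ℝ → UT h → UT h) (a : ℝ) : Prop :=
  ∀ p q : UT h, p.1.1 = q.1.1 → ∀ s t : ℝ, 0 ≤ s → 0 ≤ t →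
    Real.cosh (a * s) * Real.cosh (a * t) -
      h p.1.1 p.1.2 q.1.2 * Real.sinh (a * s) * Real.sinh (a * t) ≤
    Real.cosh (a * dd h (Ψ s p).1.1 (Ψ t q).1.1)

structure GamP (h : Met n) (C : Chr n) : Prop where
  smooth : ContDiff ℝ 1 C
  symm : ∀ x u v, C x u v = C x v u
  dsymm : ∀ x w u v, fderiv ℝ C x w u v = fderiv ℝ C x w v u
  compat : ∀ x w u v, fderiv ℝ h x w u v = h x (C x w u) v + h x u (C x w v)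

/-- The geodesic vector field. -/
noncomputable def gf (C : Chr n) (z : E n × E n) : E n × E n := (z.2, -C z.1 z.2 z.2)

def OdeP (h : Met n) (C : Chr n) (Ψ : ℝ → UT h → UT h) : Prop :=
  ∀ p t, HasDerivAt (fun s => (Ψ s p).1) (gf C (Ψ t p).1) t

/-- All geodesics that start at `y`. -/
structure ExpP (h : Met n) (C : Chr n) (Ψ : ℝ → UT h → UT h) (y : E n)
    (X : E n → ℝ → E n × E n) : Prop where
  init : ∀ ξ, X ξ 0 = (y, ξ)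
  ode : ∀ ξ t, HasDerivAt (X ξ) (gf C (X ξ t)) t
  speed : ∀ ξ t, h (X ξ t).1 (X ξ t).2 (X ξ t).2 = h y ξ ξ
  bdd : ∀ R : ℝ, ∃ B : ℝ, ∀ ξ, ‖ξ‖ ≤ R → ∀ t ∈ Icc (0 : ℝ) 1, ‖X ξ t‖ ≤ B
  flow : ∀ (p : UT h) (s : ℝ), p.1.1 = y → 0 ≤ s → (X (s • p.1.2) 1).1 = (Ψ s p).1.1

/-- The model metric of constant curvature `-a ^ 2` in polar coordinates. -/
noncomputable def mdl (h : Met n) (y : E n) (a : ℝ) (ξ η : E n) : ℝ :=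
  h y η ξ ^ 2 / h y ξ ξ + (Real.sinh (a * √(h y ξ ξ)) / (a * √(h y ξ ξ))) ^ 2 *
    (h y η η - h y η ξ ^ 2 / h y ξ ξ)

/-- `e` has invertible strict derivatives that do not shrink vectors. -/
def ExdP (h : Met n) (y : E n) (e : E n → E n) : Prop := ∀ ξ, ∃ D : E n →L[ℝ] E n,
  HasStrictFDerivAt e D ξ ∧ ∀ η, h y η η ≤ h (e ξ) (D η) (D η)

def DerP (h : Met n) (y : E n) (a : ℝ) (e : E n → E n) : Prop := ∀ ξ, ∃ D : E n →L[ℝ] E n,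
  HasStrictFDerivAt e D ξ ∧ ∀ η, h y η η ≤ h (e ξ) (D η) (D η) ∧
    (ξ ≠ 0 → mdl h y a ξ η ≤ h (e ξ) (D η) (D η))

def RayP (e : E n → E n) : Prop := IsLocalHomeomorph e ∧ ∀ x : E n, ∃ g : ℝ → E n,
  ContinuousOn g (Icc 0 1) ∧ g 0 = 0 ∧ ∀ s ∈ Icc (0 : ℝ) 1, e (g s) = e 0 + s • (x - e 0)

/-- The hyperbolic cosine of the model distance from `t • e₁` to `ξ`. -/
noncomputable def Zf (h : Met n) (y : E n) (a t : ℝ) (e₁ ξ : E n) : ℝ :=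
  Real.cosh (a * √(h y ξ ξ)) * Real.cosh (a * t) -
    h y ξ e₁ / √(h y ξ ξ) * Real.sinh (a * √(h y ξ ξ)) * Real.sinh (a * t)

structure ModP (h : Met n) (y : E n) (a t : ℝ) (e₁ : E n) : Prop where
  cont : Continuous (Zf h y a t e₁)
  one_le : ∀ ξ, 1 ≤ Zf h y a t e₁ ξ
  base : Zf h y a t e₁ (t • e₁) = 1
  der : ∀ ξ, ξ ≠ 0 → ∃ L : E n →L[ℝ] ℝ, HasFDerivAt (Zf h y a t e₁) L ξ ∧
    ∀ η, L η ^ 2 ≤ a ^ 2 * (Zf h y a t e₁ ξ ^ 2 - 1) * mdl h y a ξ η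

def SGAM : Prop := ∀ (n : ℕ) (h : Met n) (C : Chr n), Riem h → IsChr h C → GamP h C

def SODE : Prop := ∀ (n : ℕ) (h : Met n) (C : Chr n) (Ψ : ℝ → UT h → UT h), Riem h →
  IsChr h C → GamP h C → IsFlow h Ψ → OdeP h C Ψ

def SEXP : Prop := ∀ (n : ℕ) (h : Met n) (Λ : Type) [Group Λ] [MulAction Λ (E n)]
  (Ψ : ℝ → UT h → UT h) (C : Chr n) (y : E n), RP h Λ Ψ → OdeP h C Ψ → ∃ X, ExpP h C Ψ y X

def SLIN : Prop := ∀ (V : Type) [NormedAddCommGroup V] [NormedSpace ℝ V] [FiniteDimensional ℝ V]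
  (A : ℝ → V →L[ℝ] V), Continuous A → ∃ M : ℝ → V →L[ℝ] V, M 0 = ContinuousLinearMap.id ℝ V ∧
    ∀ t ∈ Icc (0 : ℝ) 1, HasDerivWithinAt M ((A t).comp (M t)) (Icc 0 1) t

def SSTR : Prop := ∀ (P V : Type) [NormedAddCommGroup P] [NormedSpace ℝ P] [NormedAddCommGroup V]
  [NormedSpace ℝ V] [FiniteDimensional ℝ V] (F : V → V) (X : P → ℝ → V) (ι : P →L[ℝ] V) (p₀ : P)
  (B : ℝ) (M : ℝ → V →L[ℝ] V), ContDiff ℝ 1 F → (∀ p t, HasDerivAt (X p) (F (X p t)) t) →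
  (∀ p q, X p 0 - X q 0 = ι (p - q)) →
  (∀ p, ‖p - p₀‖ ≤ 1 → ∀ t ∈ Icc (0 : ℝ) 1, ‖X p t‖ ≤ B) → M 0 = ContinuousLinearMap.id ℝ V →
  (∀ t ∈ Icc (0 : ℝ) 1, HasDerivWithinAt M ((fderiv ℝ F (X p₀ t)).comp (M t)) (Icc 0 1) t) →
  HasStrictFDerivAt (fun p => X p 1) ((M 1).comp ι) p₀

def SPIC : Prop := ∀ (k : ℝ) (F B B₁ Q : ℝ → ℝ), 0 < k →
  (∀ t ∈ Icc (0 : ℝ) 1, HasDerivWithinAt F (2 * B t) (Icc 0 1) t) →
  (∀ t ∈ Icc (0 : ℝ) 1, HasDerivWithinAt B (B₁ t) (Icc 0 1) t) →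
  (∀ t ∈ Icc (0 : ℝ) 1, Q t + k ^ 2 * F t ≤ B₁ t) →
  (∀ t ∈ Icc (0 : ℝ) 1, ∀ l : ℝ, 0 ≤ Q t - 2 * l * B t + l ^ 2 * F t) → F 0 = 0 → B 0 = 0 →
  (Real.sinh k / k) ^ 2 * Q 0 ≤ F 1

def SJAC : Prop := ∀ (n : ℕ) (h : Met n) (C : Chr n) (a : ℝ) (c w : ℝ → E n × E n)
  (y ξ η : E n), Riem h → GamP h C → 0 < a →
  (∀ x u v, h x (Rm C x u v v) u ≤ -a ^ 2 * (h x u u * h x v v - h x u v ^ 2)) → ξ ≠ 0 →
  c 0 = (y, ξ) → (∀ t, HasDerivAt c (gf C (c t)) t) →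
  (∀ t, h (c t).1 (c t).2 (c t).2 = h y ξ ξ) → w 0 = (0, η) →
  (∀ t ∈ Icc (0 : ℝ) 1, HasDerivWithinAt w (fderiv ℝ (gf C) (c t) (w t)) (Icc 0 1) t) →
  mdl h y a ξ η ≤ h (c 1).1 (w 1).1 (w 1).1

def SDER : Prop := ∀ (n : ℕ) (h : Met n) (C : Chr n) (Ψ : ℝ → UT h → UT h) (a : ℝ) (y : E n)
  (X : E n → ℝ → E n × E n), Riem h → GamP h C → 0 < a →
  (∀ x u v, h x (Rm C x u v v) u ≤ -a ^ 2 * (h x u u * h x v v - h x u v ^ 2)) →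
  ExpP h C Ψ y X → DerP h y a fun ξ => (X ξ 1).1

def SRAY : Prop := ∀ (n : ℕ) (h : Met n) (y : E n) (e : E n → E n), Riem h → ExdP h y e → RayP e

def SSEC : Prop := ∀ (n : ℕ) (e : E n → E n), RayP e →
  ∃ σ : E n → E n, Continuous σ ∧ (∀ ξ, σ (e ξ) = ξ) ∧ ∀ x, e (σ x) = x

def SMOD : Prop := ∀ (n : ℕ) (h : Met n) (y : E n) (a t : ℝ) (e₁ : E n), Riem h → 0 < a → 0 ≤ t →
  h y e₁ e₁ = 1 → ModP h y a t e₁

def STST : Prop := ∀ (n : ℕ) (h : Met n) (u : E n → ℝ) (y : E n), Riem h → DBP h → Continuous u →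
  (∀ x, x ≠ y → ∃ L : E n →L[ℝ] ℝ, HasFDerivAt u L x ∧ ∀ η, L η ≤ √(h x η η)) →
  ∀ a b, u b - u a ≤ seg h a b

def SHIN : Prop := ∀ (n : ℕ) (h : Met n) (y : E n) (a t : ℝ) (e₁ : E n) (e σ : E n → E n),
  Riem h → DBP h → 0 < a → DerP h y a e → ModP h y a t e₁ → Continuous σ → (∀ ξ, σ (e ξ) = ξ) →
  (∀ x, e (σ x) = x) → ∀ ξ, Zf h y a t e₁ ξ ≤ Real.cosh (a * dd h (e (t • e₁)) (e ξ))

theorem hinge_of (gam : SGAM) (ode : SODE) (exp : SEXP) (der : SDER) (ray : SRAY) (sec : SSEC)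
    (mod : SMOD) (hin : SHIN) (n : ℕ) (h : Met n) (Λ : Type) [Group Λ] [MulAction Λ (E n)]
    (Ψ : ℝ → UT h → UT h) (a : ℝ) (r : RP h Λ Ψ) (ha : 0 < a) (hc : CurvLe h a) :
    HingeP h Ψ a := by
  obtain ⟨C, c1, c2⟩ := hc
  intro p q hpq s t hs ht
  have g := gam n h C r.riem c1
  obtain ⟨X, hX⟩ := exp n h Λ Ψ C p.1.1 r (ode n h C Ψ r.riem c1 g r.flow)
  have d := der n h C Ψ a p.1.1 X r.riem g ha c2 hX
  obtain ⟨σ, s1, s2, s3⟩ := sec n _ (ray n h p.1.1 _ r.riem fun ξ =>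
    (d ξ).imp fun D hD => ⟨hD.1, fun η => (hD.2 η).1⟩)
  have hq : h p.1.1 q.1.2 q.1.2 = 1 := by rw [hpq]; exact q.2
  have := hin n h p.1.1 a t q.1.2 _ σ r.riem r.db ha d (mod n h p.1.1 a t q.1.2 r.riem ha ht hq)
    s1 s2 s3 (s • p.1.2)
  simp only [hX.flow p s rfl hs, hX.flow q t hpq.symm ht] at this
  rw [r.db.symm]
  refine le_trans (le_of_eq ?_) this
  have h1 : √(h p.1.1 (s • p.1.2) (s • p.1.2)) = s := by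
    have : h p.1.1 (s • p.1.2) (s • p.1.2) = s ^ 2 := by
      simp only [map_smul, ContinuousLinearMap.smul_apply, smul_eq_mul, p.2]; ring
    rw [this, Real.sqrt_sq hs]
  unfold Zf
  rw [h1]
  rcases hs.eq_or_lt with rfl | hs'
  · simp
  · simp only [map_smul, ContinuousLinearMap.smul_apply, smul_eq_mul]
    field_simp

end Pool.Agent.MP_3ee8cb_gt.TB
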