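import Pool.Agent.MP_3ee8cb_gt.TB.Spec

/-! The derivative of the exponential map. -/

namespace Pool.Agent.MP_3ee8cb_gt.TB

open Pool.Agent.MP_3ee8cb_gt.CR Set

variable {n : ℕ}

theorem der_const {V : Type} [NormedAddCommGroup V] [NormedSpace ℝ V] {f : ℝ → V}
    (h : ∀ t ∈ Icc (0 : ℝ) 1, HasDerivWithinAt f 0 (Icc 0 1) t) : ∀ t ∈ Icc (0 : ℝ) 1, f t = f 0 :=
  constant_of_derivWithin_zero (fun t ht => (h t ht).differentiableWithinAt) fun t ht =>
    (h t (Ico_subset_Icc_self ht)).derivWithin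
      (uniqueDiffOn_Icc zero_lt_one t (Ico_subset_Icc_self ht))

theorem der_fst {f : ℝ → E n × E n} {v : E n × E n} {s : Set ℝ} {t : ℝ}
    (h : HasDerivWithinAt f v s t) : HasDerivWithinAt (fun t => (f t).1) v.1 s t :=
  (ContinuousLinearMap.fst ℝ (E n) (E n)).hasFDerivAt.comp_hasDerivWithinAt t h

theorem der_snd {f : ℝ → E n × E n} {v : E n × E n} {s : Set ℝ} {t : ℝ}
    (h : HasDerivWithinAt f v s t) : HasDerivWithinAt (fun t => (f t).2) v.2 s t :=
  (ContinuousLinearMap.snd ℝ (E n) (E n)).hasFDerivAt.comp_hasDerivWithinAt t h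

theorem der_smooth {C : Chr n} (hC : ContDiff ℝ 1 C) : ContDiff ℝ 1 (gf C) :=
  contDiff_snd.prodMk
    (((hC.comp contDiff_fst).clm_apply contDiff_snd).clm_apply contDiff_snd).neg

theorem der_zero {C : Chr n} (hC : ContDiff ℝ 1 C) (x : E n) (v : E n × E n) :
    fderiv ℝ (gf C) (x, 0) v = (v.2, 0) := by
  have h1 : DifferentiableAt ℝ (fun z : E n × E n => C z.1 z.2) (x, 0) :=
    ((hC.comp contDiff_fst).clm_apply contDiff_snd).differentiable one_ne_zero _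
  have h2 := (hasFDerivAt_snd (𝕜 := ℝ) (p := ((x, 0) : E n × E n))).prodMk
    (h1.hasFDerivAt.clm_apply (hasFDerivAt_snd (𝕜 := ℝ) (p := ((x, 0) : E n × E n)))).neg
  have h3 := h2.fderiv
  change fderiv ℝ (gf C) (x, 0) = _ at h3
  rw [h3]
  simp

theorem der_cs {h : Met n} (r : Riem h) (y ξ η : E n) (hξ : ξ ≠ 0) :
    h y η ξ ^ 2 / h y ξ ξ ≤ h y η η := by
  have hp := r.pos y ξ hξ
  have h0 : 0 ≤ h y (η - (h y η ξ / h y ξ ξ) • ξ) (η - (h y η ξ / h y ξ ξ) • ξ) := by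
    by_cases e : η - (h y η ξ / h y ξ ξ) • ξ = 0
    · rw [e]; simp
    · exact (r.pos y _ e).le
  simp only [map_sub, map_smul, sub_apply, smul_apply,
    smul_eq_mul, r.symm y ξ η] at h0
  have e : h y η η - h y η ξ / h y ξ ξ * h y η ξ -
      h y η ξ / h y ξ ξ * (h y η ξ - h y η ξ / h y ξ ξ * h y ξ ξ) =
        h y η η - h y η ξ ^ 2 / h y ξ ξ := by
    field_simp
    ring
  linarith

theorem der_mdl {h : Met n} (r : Riem h) (y ξ η : E n) {a : ℝ} (ha : 0 < a) (hξ : ξ ≠ 0) :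
    h y η η ≤ mdl h y a ξ η := by
  have hx : 0 < a * √(h y ξ ξ) := mul_pos ha (Real.sqrt_pos.2 (r.pos y ξ hξ))
  have h1 : 1 ≤ Real.sinh (a * √(h y ξ ξ)) / (a * √(h y ξ ξ)) :=
    (one_le_div hx).2 (Real.self_le_sinh_iff.2 hx.le)
  have h2 := le_mul_of_one_le_left (sub_nonneg.2 (der_cs r y ξ η hξ)) (one_le_pow₀ (n := 2) h1)
  unfold mdl
  linarith

theorem der (lin : SLIN) (str : SSTR) (jac : SJAC) : SDER := by
  intro n h C Ψ a y X r g ha hc hX ξ
  have hs := der_smooth g.smooth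
  have hXc : Continuous (X ξ) :=
    continuous_iff_continuousAt.2 fun t => (hX.ode ξ t).continuousAt
  obtain ⟨M, m0, m1⟩ := lin (E n × E n) (fun t => fderiv ℝ (gf C) (X ξ t))
    ((hs.continuous_fderiv one_ne_zero).comp hXc)
  obtain ⟨B, hB⟩ := hX.bdd (‖ξ‖ + 1)
  have h1 := str (E n) (E n × E n) (gf C) X (ContinuousLinearMap.inr ℝ _ _) ξ B M hs hX.ode
    (fun p q => by rw [hX.init, hX.init]; simp)
    (fun p hp => hB p (by linarith [norm_le_norm_add_norm_sub' p ξ])) m0 m1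
  refine ⟨_, h1.fst, fun η => ?_⟩
  have w0 : M 0 (0, η) = (0, η) := by rw [m0]; rfl
  have w1 : ∀ t ∈ Icc (0 : ℝ) 1, HasDerivWithinAt (fun t => M t (0, η))
      (fderiv ℝ (gf C) (X ξ t) (M t (0, η))) (Icc 0 1) t := fun t ht => by
    simpa using (m1 t ht).clm_apply (hasDerivWithinAt_const t (Icc (0 : ℝ) 1) ((0, η) : E n × E n))
  have key : ξ ≠ 0 → mdl h y a ξ η ≤ h (X ξ 1).1 (M 1 (0, η)).1 (M 1 (0, η)).1 := fun hξ =>
    jac n h C a (X ξ) (fun t => M t (0, η)) y ξ η r g ha hc hξ (hX.init ξ) (hX.ode ξ)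
      (hX.speed ξ) w0 w1
  refine ⟨?_, key⟩
  by_cases hξ : ξ = 0
  swap
  · exact (der_mdl r y ξ η ha hξ).trans (key hξ)
  subst hξ
  have v0 : ∀ t, (X 0 t).2 = 0 := fun t => by
    by_contra e
    have := r.pos (X 0 t).1 _ e
    rw [hX.speed] at this
    simp at this
  have x0 : (X 0 1).1 = y := by
    have := der_const (f := fun t => (X 0 t).1) (fun t _ => by
      have := der_fst (hX.ode 0 t).hasDerivWithinAt (s := Icc 0 1)
      rwa [show (gf C (X 0 t)).1 = 0 from v0 t] at this) 1 ⟨zero_le_one, le_rfl⟩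
    rw [this, hX.init]
  have w2 : ∀ t ∈ Icc (0 : ℝ) 1, HasDerivWithinAt (fun t => M t (0, η))
      ((M t (0, η)).2, 0) (Icc 0 1) t := fun t ht => by
    have := w1 t ht
    rwa [show X 0 t = ((X 0 t).1, 0) from Prod.ext rfl (v0 t), der_zero g.smooth] at this
  have w3 : ∀ t ∈ Icc (0 : ℝ) 1, (M t (0, η)).2 = η := fun t ht =>
    (der_const (f := fun t => (M t (0, η)).2) (fun t ht => der_snd (w2 t ht)) t ht).trans
      (by rw [w0])
  have w4 := der_const (f := fun t => (M t (0, η)).1 - t • η) (fun t ht => by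
    have := (der_fst (w2 t ht)).sub ((hasDerivWithinAt_id t _).smul_const η)
    rw [w3 t ht, one_smul, sub_self] at this
    exact this) 1 ⟨zero_le_one, le_rfl⟩
  simp only [w0, one_smul, zero_smul, sub_zero, sub_eq_zero] at w4
  change h y η η ≤ h (X 0 1).1 (M 1 (0, η)).1 (M 1 (0, η)).1
  rw [x0, w4]

end Pool.Agent.MP_3ee8cb_gt.TB
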