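import Pool.Agent.MP_3ee8cb_gt.TB.Spec

/-! All geodesics that start at a point, by rescaling the geodesic flow. -/

namespace Pool.Agent.MP_3ee8cb_gt.TB

open Pool.Agent.MP_3ee8cb_gt.CR Set

variable {n : ℕ} {h : Met n}

theorem exp_smul (x v : E n) (c : ℝ) : h x (c • v) (c • v) = c ^ 2 * h x v v := by
  rw [map_smul, map_smul]
  change c * (c * h x v v) = _
  ring

/-- The unit vector in the direction of `ξ`. -/
noncomputable def exp_u (r : Riem h) (y ξ : E n) (hξ : ξ ≠ 0) : UT h :=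
  ⟨(y, (√(h y ξ ξ))⁻¹ • ξ), by
    have hp := r.pos y ξ hξ
    change h y _ _ = 1
    rw [exp_smul, inv_pow, Real.sq_sqrt hp.le, inv_mul_cancel₀ hp.ne']⟩

open Classical in
/-- The geodesic with initial vector `ξ`. -/
noncomputable def exp_X (r : Riem h) (Ψ : ℝ → UT h → UT h) (y ξ : E n) (t : ℝ) : E n × E n :=
  if hξ : ξ = 0 then (y, 0) else
    ((Ψ (√(h y ξ ξ) * t) (exp_u r y ξ hξ)).1.1,
      √(h y ξ ξ) • (Ψ (√(h y ξ ξ) * t) (exp_u r y ξ hξ)).1.2)

theorem exp_unit (r : Riem h) (B : ℝ) : ∃ M : ℝ, ∀ x v : E n, ‖x‖ ≤ B → h x v v = 1 → ‖v‖ ≤ M := by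
  have hK : IsCompact (Metric.closedBall (0 : E n) B ×ˢ Metric.sphere (0 : E n) 1) :=
    (isCompact_closedBall _ _).prod (isCompact_sphere _ _)
  have hc : Continuous fun w : E n × E n => h w.1 w.2 w.2 :=
    ((r.smooth.continuous.comp continuous_fst).clm_apply continuous_snd).clm_apply continuous_snd
  obtain ⟨C, hC⟩ := hK.exists_bound_of_continuousOn (hc.continuousOn.inv₀ fun w hw =>
    (r.pos w.1 w.2 fun h0 => by
      have h1 : ‖w.2‖ = 1 := by simpa using hw.2
      rw [h0, norm_zero] at h1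
      exact zero_ne_one h1).ne')
  refine ⟨C + 1, fun x v hx hv => ?_⟩
  have h0 : v ≠ 0 := by
    rintro rfl
    simp at hv
  have hn : 0 < ‖v‖ := norm_pos_iff.2 h0
  have hu : ‖‖v‖⁻¹ • v‖ = 1 := by rw [norm_smul, norm_inv, norm_norm, inv_mul_cancel₀ hn.ne']
  have h1 := hC (x, ‖v‖⁻¹ • v) ⟨by simpa using hx, by simpa using hu⟩
  change ‖(h x (‖v‖⁻¹ • v) (‖v‖⁻¹ • v))⁻¹‖ ≤ C at h1
  rw [exp_smul, hv, mul_one, inv_pow, inv_inv, Real.norm_of_nonneg (sq_nonneg _)] at h1
  nlinarith [sq_nonneg (‖v‖ - 1)]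

theorem exp_ : SEXP := by
  intro n h Λ _ _ Ψ C y r hode
  refine ⟨exp_X r.riem Ψ y, fun ξ => ?_, fun ξ t => ?_, fun ξ t => ?_, fun R => ?_,
    fun p s hp hs => ?_⟩
  · unfold exp_X
    split_ifs with hξ
    · rw [hξ]
    · have hp := Real.sqrt_pos.2 (r.riem.pos y ξ hξ)
      rw [mul_zero, r.flow.zero]
      change (y, √(h y ξ ξ) • (√(h y ξ ξ))⁻¹ • ξ) = (y, ξ)
      rw [smul_smul, mul_inv_cancel₀ hp.ne', one_smul]
  · unfold exp_X
    by_cases hξ : ξ = 0
    · simp only [dif_pos hξ]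
      have e : gf C ((y, 0) : E n × E n) = 0 := by simp [gf]
      rw [e]
      exact hasDerivAt_const t _
    · simp only [dif_neg hξ]
      generalize √(h y ξ ξ) = c
      generalize exp_u r.riem y ξ hξ = p
      have H : HasDerivAt (fun s => (Ψ (c * s) p).1) (c • gf C (Ψ (c * t) p).1) t := by
        have h1 : HasDerivAt (fun s : ℝ => c * s) c t := by
          simpa using (hasDerivAt_id t).const_mul c
        exact (hode p (c * t)).scomp t h1
      have H1 := (ContinuousLinearMap.fst ℝ (E n) (E n)).hasFDerivAt.comp_hasDerivAt t H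
      have H2 := ((ContinuousLinearMap.snd ℝ (E n) (E n)).hasFDerivAt.comp_hasDerivAt t
        H).const_smul c
      have e : gf C ((Ψ (c * t) p).1.1, c • (Ψ (c * t) p).1.2) =
          (ContinuousLinearMap.fst ℝ (E n) (E n) (c • gf C (Ψ (c * t) p).1),
            c • ContinuousLinearMap.snd ℝ (E n) (E n) (c • gf C (Ψ (c * t) p).1)) := by
        simp [gf]
      rw [e]
      exact H1.prodMk H2
  · unfold exp_X
    split_ifs with hξ
    · simp [hξ]
    · change h _ (_ • _) (_ • _) = _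
      rw [exp_smul, (Ψ _ _).2, mul_one, Real.sq_sqrt (r.riem.pos y ξ hξ).le]
  · obtain ⟨B, hB⟩ := (r.pro y (√(‖h y‖ * R * R))).exists_norm_le
    obtain ⟨M, hM⟩ := exp_unit r.riem B
    refine ⟨max ‖y‖ (max B (√(‖h y‖ * R * R) * M)), fun ξ hR t ht => ?_⟩
    unfold exp_X
    split_ifs with hξ
    · refine le_trans (le_of_eq ?_) (le_max_left _ _)
      simp
    · have h0 : 0 ≤ √(h y ξ ξ) := Real.sqrt_nonneg _
      have h1 : √(h y ξ ξ) ≤ √(‖h y‖ * R * R) := by
        refine Real.sqrt_le_sqrt ((le_abs_self _).trans (((h y).le_opNorm₂ ξ ξ).trans ?_))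
        have := norm_nonneg ξ
        gcongr
        exact mul_nonneg (h y).opNorm_nonneg (this.trans hR)
      have h2 := r.fl.lip (exp_u r.riem y ξ hξ) 0 (√(h y ξ ξ) * t)
      rw [r.flow.zero, zero_sub, abs_neg, abs_of_nonneg (mul_nonneg h0 ht.1)] at h2
      have h3 := hB _ (h2.trans ((mul_le_of_le_one_right h0 ht.2).trans h1))
      have h4 := hM _ _ h3 (Ψ (√(h y ξ ξ) * t) (exp_u r.riem y ξ hξ)).2
      refine le_trans ?_ (le_max_right _ _)
      rw [Prod.norm_mk]
      refine max_le_max h3 ?_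
      rw [norm_smul, Real.norm_of_nonneg h0]
      exact mul_le_mul h1 h4 (norm_nonneg _) (Real.sqrt_nonneg _)
  · subst hp
    unfold exp_X
    rcases hs.eq_or_lt with rfl | hs'
    · rw [dif_pos (zero_smul ℝ _), r.flow.zero]
    · have h0 : p.1.2 ≠ 0 := fun e => by
        have := p.2
        rw [e] at this
        simp at this
      have hξ : s • p.1.2 ≠ 0 := smul_ne_zero hs'.ne' h0
      have h1 : √(h p.1.1 (s • p.1.2) (s • p.1.2)) = s := by
        rw [exp_smul, p.2, mul_one, Real.sqrt_sq hs]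
      have h2 : exp_u r.riem p.1.1 (s • p.1.2) hξ = p := by
        refine Subtype.ext (Prod.ext rfl ?_)
        change (√(h p.1.1 (s • p.1.2) (s • p.1.2)))⁻¹ • s • p.1.2 = p.1.2
        rw [h1, smul_smul, inv_mul_cancel₀ hs'.ne', one_smul]
      rw [dif_neg hξ, h2, h1, mul_one]

end Pool.Agent.MP_3ee8cb_gt.TB
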