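import Pool.Agent.MP_3ee8cb_gt.TB.Spec

/-! Row GAM: smoothness, symmetry and metric compatibility of the Christoffel symbols. -/

namespace Pool.Agent.MP_3ee8cb_gt.TB

open Pool.Agent.MP_3ee8cb_gt.CR Set

variable {n : ℕ}

theorem gam_inj {h : Met n} (r : Riem h) (x : E n) : Function.Injective (h x) := by
  refine (injective_iff_map_eq_zero (h x)).2 fun v hv => ?_
  by_contra hne
  have h1 := r.pos x v hne
  rw [hv] at h1
  simp at h1

theorem gam_equiv {h : Met n} (r : Riem h) (x : E n) :
    ∃ e : E n ≃L[ℝ] (E n →L[ℝ] ℝ), (e : E n →L[ℝ] E n →L[ℝ] ℝ) = h x := by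
  have hd : Module.finrank ℝ (E n) = Module.finrank ℝ (E n →L[ℝ] ℝ) := by
    rw [← (LinearMap.toContinuousLinearMap (𝕜 := ℝ) (E := E n) (F' := ℝ)).finrank_eq]
    exact Subspace.dual_finrank_eq.symm
  refine ⟨(LinearMap.linearEquivOfInjective (h x : E n →ₗ[ℝ] E n →L[ℝ] ℝ) (gam_inj r x)
    hd).toContinuousLinearEquiv, ?_⟩
  ext1 v
  rfl

theorem gam_inv_smooth {h : Met n} (r : Riem h) :
    ContDiff ℝ 1 fun x => ContinuousLinearMap.inverse (h x) := by
  rw [contDiff_iff_contDiffAt]
  intro x
  obtain ⟨e, he⟩ := gam_equiv r x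
  have h1 : ContDiffAt ℝ 1 ContinuousLinearMap.inverse (h x) := by
    rw [← he]
    exact contDiffAt_map_inverse e
  exact h1.comp x (r.smooth.of_le (by norm_num)).contDiffAt

theorem gam_fd1 {A B F : Type} [NormedAddCommGroup A] [NormedSpace ℝ A] [NormedAddCommGroup B]
    [NormedSpace ℝ B] [NormedAddCommGroup F] [NormedSpace ℝ F] {g : A → B →L[ℝ] F} {x : A}
    (hg : DifferentiableAt ℝ g x) (w : A) (u : B) :
    fderiv ℝ (fun y => g y u) x w = fderiv ℝ g x w u := by
  rw [fderiv_clm_apply hg (differentiableAt_const u)]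
  simp

theorem gam_fd2 {A B : Type} [NormedAddCommGroup A] [NormedSpace ℝ A] [NormedAddCommGroup B]
    [NormedSpace ℝ B] {f : A → B} (hf : ContDiff ℝ 2 f) (w : A) :
    ContDiff ℝ 1 fun x => fderiv ℝ f x w :=
  (hf.fderiv_right (m := 1) (by norm_num)).clm_apply contDiff_const

theorem gam_fderiv_apply {F : Type} [NormedAddCommGroup F] [NormedSpace ℝ F]
    {g : E n → E n →L[ℝ] E n →L[ℝ] F} {x : E n} (hg : DifferentiableAt ℝ g x) (w u v : E n) :
    fderiv ℝ (fun y => g y u v) x w = fderiv ℝ g x w u v := by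
  have h1 : DifferentiableAt ℝ (fun y => g y u) x := hg.clm_apply (differentiableAt_const u)
  rw [gam_fd1 h1 w v, gam_fd1 hg w u]

theorem gam_dsymm {F : Type} [NormedAddCommGroup F] [NormedSpace ℝ F]
    {g : E n → E n →L[ℝ] E n →L[ℝ] F} (hs : ∀ x u v, g x u v = g x v u) {x : E n}
    (hg : DifferentiableAt ℝ g x) (w u v : E n) :
    fderiv ℝ g x w u v = fderiv ℝ g x w v u := by
  rw [← gam_fderiv_apply hg, ← gam_fderiv_apply hg]
  simp only [hs _ u v]

theorem gam : SGAM := by
  intro n h C r c
  have hdiff : ∀ x, DifferentiableAt ℝ h x := fun x =>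
    (r.smooth.differentiable (by norm_num)).differentiableAt
  have hT : ∀ a b e : E n, ContDiff ℝ 1 fun x => fderiv ℝ h x a b e := fun a b e =>
    ((gam_fd2 r.smooth a).clm_apply contDiff_const).clm_apply contDiff_const
  have hsm : ContDiff ℝ 1 C := by
    rw [contDiff_clm_apply_iff]
    intro u
    rw [contDiff_clm_apply_iff]
    intro v
    have hK : ContDiff ℝ 1 fun x => h x (C x u v) := by
      rw [contDiff_clm_apply_iff]
      intro w
      have e1 : (fun x => h x (C x u v) w) = fun x => (1 / 2 : ℝ) *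
          (fderiv ℝ h x u v w + fderiv ℝ h x v u w - fderiv ℝ h x w u v) := by
        funext x
        rw [← c x u v w]
        ring
      rw [e1]
      exact contDiff_const.mul (((hT u v w).add (hT v u w)).sub (hT w u v))
    have e2 : (fun x => C x u v) =
        fun x => ContinuousLinearMap.inverse (h x) (h x (C x u v)) := by
      funext x
      obtain ⟨e, he⟩ := gam_equiv r x
      rw [← he]
      simp
    rw [e2]
    exact (gam_inv_smooth r).clm_apply hK
  have hsy : ∀ x u v, C x u v = C x v u := by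
    intro x u v
    apply gam_inj r x
    ext1 w
    have e1 := c x u v w
    have e2 := c x v u w
    have e3 := gam_dsymm r.symm (hdiff x) w u v
    linarith
  refine ⟨hsm, hsy, fun x w u v => ?_, fun x w u v => ?_⟩
  · exact gam_dsymm hsy (hsm.differentiable (by norm_num)).differentiableAt w u v
  · have e1 := c x w u v
    have e2 := c x w v u
    have e3 := gam_dsymm r.symm (hdiff x) w u v
    have e4 := gam_dsymm r.symm (hdiff x) u w v
    have e5 := gam_dsymm r.symm (hdiff x) v w u
    have e6 := r.symm x u (C x w v)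
    linarith

end Pool.Agent.MP_3ee8cb_gt.TB
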