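import Pool.Agent.MP_3ee8cb_gt.TB.Spec

namespace Pool.Agent.MP_3ee8cb_gt.TB

open Pool.Agent.MP_3ee8cb_gt.CR Set

/-- The inverse map has a derivative that is a right inverse of the derivative of `e`. -/
theorem hin_inv {n : ℕ} {h : Met n} {y : E n} {e σ : E n → E n} (hr : Riem h)
    (hσ : Continuous σ) (h2 : ∀ x, e (σ x) = x) (x : E n) (D : E n →L[ℝ] E n)
    (hD : HasStrictFDerivAt e D (σ x)) (hb : ∀ η, h y η η ≤ h (e (σ x)) (D η) (D η)) :
    ∃ D' : E n →L[ℝ] E n, HasFDerivAt σ D' x ∧ ∀ η, D (D' η) = η := by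
  have hinj : Function.Injective (D : E n →ₗ[ℝ] E n) := by
    rw [injective_iff_map_eq_zero]
    intro η hη
    by_contra hne
    have h1 := hr.pos y η hne
    have h3 := hb η
    have h4 : D η = 0 := hη
    rw [h4] at h3
    simp only [map_zero] at h3
    linarith
  let A : E n ≃ₗ[ℝ] E n := LinearEquiv.ofInjectiveEndo (D : E n →ₗ[ℝ] E n) hinj
  let B : E n ≃L[ℝ] E n := A.toContinuousLinearEquiv
  have hB : (B : E n →L[ℝ] E n) = D := by
    ext1 η
    rfl
  refine ⟨(B.symm : E n →L[ℝ] E n), ?_, fun η => ?_⟩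
  · refine HasFDerivAt.of_local_left_inverse (f := e) (f' := B) hσ.continuousAt ?_
      (Filter.Eventually.of_forall h2)
    rw [hB]
    exact hD.hasFDerivAt
  · rw [← hB]
    exact B.apply_symm_apply η

theorem hin_num {a Z W m q l : ℝ} (ha : 0 < a) (hZ : 1 ≤ Z) (hW : Z < W) (hm : m ≤ q)
    (hl : l ^ 2 ≤ a ^ 2 * (Z ^ 2 - 1) * m) (hq : 0 ≤ q) :
    a⁻¹ * ((√(W ^ 2 - 1))⁻¹ * l) ≤ √q := by
  have h0 : 0 ≤ Z ^ 2 - 1 := by nlinarith
  have h1 : 0 < W ^ 2 - 1 := by nlinarith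
  have h2 : Z ^ 2 - 1 ≤ W ^ 2 - 1 := by nlinarith
  have h3 : l ^ 2 ≤ a ^ 2 * (W ^ 2 - 1) * q := by
    refine hl.trans ?_
    calc a ^ 2 * (Z ^ 2 - 1) * m ≤ a ^ 2 * (Z ^ 2 - 1) * q :=
          mul_le_mul_of_nonneg_left hm (by positivity)
      _ ≤ a ^ 2 * (W ^ 2 - 1) * q :=
          mul_le_mul_of_nonneg_right (mul_le_mul_of_nonneg_left h2 (by positivity)) hq
  have hs : 0 < √(W ^ 2 - 1) := Real.sqrt_pos.2 h1
  have h4 : l ≤ a * √(W ^ 2 - 1) * √q := by
    refine le_trans (le_abs_self l) (abs_le_of_sq_le_sq ?_ (by positivity))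
    rw [mul_pow, mul_pow, Real.sq_sqrt h1.le, Real.sq_sqrt hq]
    exact h3
  rw [← mul_assoc, ← mul_inv, inv_mul_le_iff₀ (by positivity)]
  exact h4

theorem hin (tst : STST) : SHIN := by
  intro n h y a t e₁ e σ hr hd ha hder hm hσ h1 h2 ξ
  have key : ∀ δ : ℝ, 0 < δ → Real.arcosh (Zf h y a t e₁ ξ + δ) - Real.arcosh (1 + δ) ≤
      a * dd h (e (t • e₁)) (e ξ) := by
    intro δ hδ
    have hW : ∀ x, 1 < Zf h y a t e₁ (σ x) + δ := fun x => by linarith [hm.one_le (σ x)]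
    have hcW : Continuous fun x => Zf h y a t e₁ (σ x) + δ :=
      (hm.cont.comp hσ).add continuous_const
    have hu : Continuous fun x => a⁻¹ * Real.arcosh (Zf h y a t e₁ (σ x) + δ) :=
      continuous_const.mul
        (Real.continuousOn_arcosh.comp_continuous hcW fun x => (hW x).le)
    have hseg := tst n h (fun x => a⁻¹ * Real.arcosh (Zf h y a t e₁ (σ x) + δ)) (e 0) hr hd hu
      (by
        intro x hx
        have hne : σ x ≠ 0 := fun h0 => hx (by rw [← h2 x, h0])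
        obtain ⟨D, hD, hb⟩ := hder (σ x)
        obtain ⟨D', hD', hi⟩ := hin_inv hr hσ h2 x D hD fun η => (hb η).1
        obtain ⟨L, hL, hLb⟩ := hm.der (σ x) hne
        have c1 : HasFDerivAt (fun x => Zf h y a t e₁ (σ x) + δ) (L.comp D') x :=
          (hL.comp x hD').add_const δ
        have c2 := (Real.hasDerivAt_arcosh (hW x)).comp_hasFDerivAt x c1
        refine ⟨_, c2.const_mul a⁻¹, fun η => ?_⟩
        have hq : 0 ≤ h x η η := by
          by_cases hη : η = 0
          · simp [hη]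
          · exact (hr.pos x η hη).le
        have hmq : mdl h y a (σ x) (D' η) ≤ h x η η := by
          have := (hb (D' η)).2 hne
          rwa [hi, h2] at this
        exact hin_num ha (hm.one_le (σ x)) (lt_add_of_pos_right _ hδ) hmq (hLb (D' η)) hq)
    have ht := hd.test _ hseg (e (t • e₁)) (e ξ)
    simp only [h1, hm.base] at ht
    rw [← mul_sub, inv_mul_le_iff₀ ha] at ht
    exact ht
  have hZ := hm.one_le ξ
  have hle : Real.arcosh (Zf h y a t e₁ ξ) ≤ a * dd h (e (t • e₁)) (e ξ) := by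
    refine le_of_forall_pos_le_add fun ε hε => ?_
    have hc : 0 < Real.cosh ε - 1 := sub_pos.2 (Real.one_lt_cosh.2 hε.ne')
    have k := key _ hc
    rw [add_sub_cancel, Real.arcosh_cosh hε.le] at k
    have m : Real.arcosh (Zf h y a t e₁ ξ) ≤ Real.arcosh (Zf h y a t e₁ ξ + (Real.cosh ε - 1)) :=
      (Real.arcosh_le_arcosh (by linarith) (by linarith)).2 (by linarith)
    linarith
  rw [← Real.cosh_arcosh hZ, Real.cosh_le_cosh, abs_of_nonneg (Real.arcosh_nonneg hZ)]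
  exact hle.trans (le_abs_self _)

end Pool.Agent.MP_3ee8cb_gt.TB
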