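import Pool.Agent.MP_3ee8cb_gt.TB.Spec

namespace Pool.Agent.MP_3ee8cb_gt.TB

open Pool.Agent.MP_3ee8cb_gt.CR Set

variable {n : ℕ}

theorem jac_lin (α β : ℝ) (h : ∀ l : ℝ, l * α + l ^ 2 * β ≤ 0) : α = 0 := by
  have hm : 0 < |β| + 1 := by positivity
  have h1 := h (α / (|β| + 1))
  have e : α / (|β| + 1) * α + (α / (|β| + 1)) ^ 2 * β =
      (α / (|β| + 1)) ^ 2 * (|β| + 1 + β) := by
    field_simp
  rw [e] at h1
  have h2 : 0 < |β| + 1 + β := by linarith [neg_abs_le β]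
  have h3 : (α / (|β| + 1)) ^ 2 ≤ 0 := by
    by_contra hc
    exact absurd h1 (not_le.2 (mul_pos (not_le.1 hc) h2))
  have h4 : α / (|β| + 1) = 0 := pow_eq_zero_iff (two_ne_zero) |>.1 (le_antisymm h3 (sq_nonneg _))
  rcases div_eq_zero_iff.1 h4 with h5 | h5
  · exact h5
  · exact absurd h5 hm.ne'

theorem jac_const {f : ℝ → ℝ} (hf : ∀ t ∈ Icc (0 : ℝ) 1, HasDerivWithinAt f 0 (Icc 0 1) t) :
    ∀ t ∈ Icc (0 : ℝ) 1, f t = f 0 :=
  constant_of_derivWithin_zero (fun t ht => (hf t ht).differentiableWithinAt) fun t ht =>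
    (hf t (Ico_subset_Icc_self ht)).derivWithin
      (uniqueDiffOn_Icc zero_lt_one t (Ico_subset_Icc_self ht))

theorem jac_prod {h : Met n} {C : Chr n} (hh : Riem h) (hC : GamP h C) {x a b : ℝ → E n}
    {v a' b' A B : E n} {s : Set ℝ} {t : ℝ} (hx : HasDerivWithinAt x v s t)
    (ha : HasDerivWithinAt a a' s t) (hb : HasDerivWithinAt b b' s t)
    (eA : a' + C (x t) v (a t) = A) (eB : b' + C (x t) v (b t) = B) :
    HasDerivWithinAt (fun r => h (x r) (a r) (b r)) (h (x t) A (b t) + h (x t) (a t) B) s t := by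
  have h1 : HasDerivWithinAt (fun r => h (x r)) (fderiv ℝ h (x t) v) s t :=
    HasFDerivAt.comp_hasDerivWithinAt (E := E n →L[ℝ] E n →L[ℝ] ℝ) t
      (hh.smooth.differentiable (by norm_num) (x t)).hasFDerivAt hx
  have h2 := (h1.clm_apply ha).clm_apply hb
  refine h2.congr_deriv ?_
  rw [← eA, ← eB]
  simp only [add_apply, map_add, hC.compat]
  ring

theorem jac_fd {h : Met n} {C : Chr n} (hC : GamP h C) (z u : E n × E n) :
    fderiv ℝ (gf C) z u = (u.2, -(fderiv ℝ C z.1 u.1 z.2 z.2 + C z.1 u.2 z.2 + C z.1 z.2 u.2)) := by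
  have h1 : HasFDerivAt (fun z : E n × E n => C z.1)
      ((fderiv ℝ C z.1).comp (ContinuousLinearMap.fst ℝ (E n) (E n))) z :=
    HasFDerivAt.comp (G := E n →L[ℝ] E n →L[ℝ] E n) (f := fun z : E n × E n => z.1) z
      (hC.smooth.differentiable (by norm_num) z.1).hasFDerivAt hasFDerivAt_fst
  have h2 : HasFDerivAt (fun z : E n × E n => z.2) (ContinuousLinearMap.snd ℝ (E n) (E n)) z :=
    hasFDerivAt_snd
  have h3 := h2.prodMk ((h1.clm_apply h2).clm_apply h2).neg
  have h4 := h3.fderiv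
  have e : fderiv ℝ (gf C) z = _ := h4
  rw [e]
  refine Prod.ext rfl ?_
  simp
  abel

theorem jac_perp {h : Met n} {C : Chr n} (hh : Riem h) {a : ℝ}
    (hK : ∀ x u v, h x (Rm C x u v v) u ≤ -a ^ 2 * (h x u u * h x v v - h x u v ^ 2))
    (x u v : E n) : h x (Rm C x u v v) v = 0 := by
  refine jac_lin _ (h x (Rm C x u v v) u + a ^ 2 * (h x u u * h x v v - h x u v ^ 2)) fun l => ?_
  have h1 := hK x (v + l • u) v
  have e : Rm C x (v + l • u) v v = l • Rm C x u v v := by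
    simp only [Rm, map_add, map_smul, add_apply, smul_apply, smul_add, smul_sub]
    abel
  rw [e] at h1
  simp only [map_add, map_smul, add_apply, smul_apply, smul_eq_mul, hh.symm x v u] at h1
  nlinarith [h1]

theorem jac_cs {h : Met n} (hh : Riem h) (x z v : E n) (hv : 0 < h x v v) :
    0 ≤ h x z z - h x z v ^ 2 / h x v v := by
  have h0 : ∀ z, 0 ≤ h x z z := fun z => by
    by_cases hz : z = 0
    · simp [hz]
    · exact (hh.pos x z hz).le
  have h1 := h0 (z - (h x z v / h x v v) • v)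
  refine h1.trans (le_of_eq ?_)
  simp only [map_sub, map_smul, sub_apply, smul_apply, smul_eq_mul, hh.symm x v z]
  field_simp
  ring

theorem jac (pic : SPIC) : SJAC := by
  intro n h C a c w y ξ η hh hC ha hK hξ c0 hc hs w0 hw
  have r0 : 0 < h y ξ ξ := hh.pos y ξ hξ
  have hx : ∀ t, HasDerivWithinAt (fun r => (c r).1) (c t).2 (Icc 0 1) t := fun t =>
    ((ContinuousLinearMap.fst ℝ (E n) (E n)).hasFDerivAt.comp_hasDerivAt t
      (hc t)).hasDerivWithinAt
  have hv : ∀ t, HasDerivWithinAt (fun r => (c r).2) (-C (c t).1 (c t).2 (c t).2) (Icc 0 1) t :=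
    fun t => ((ContinuousLinearMap.snd ℝ (E n) (E n)).hasFDerivAt.comp_hasDerivAt t
      (hc t)).hasDerivWithinAt
  have hJ : ∀ t ∈ Icc (0 : ℝ) 1, HasDerivWithinAt (fun r => (w r).1) (w t).2 (Icc 0 1) t := by
    intro t ht
    have := (ContinuousLinearMap.fst ℝ (E n) (E n)).hasFDerivAt.comp_hasDerivWithinAt t (hw t ht)
    rw [jac_fd hC] at this
    exact this
  have hW : ∀ t ∈ Icc (0 : ℝ) 1, HasDerivWithinAt (fun r => (w r).2)
      (-(fderiv ℝ C (c t).1 (w t).1 (c t).2 (c t).2 + C (c t).1 (w t).2 (c t).2 +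
        C (c t).1 (c t).2 (w t).2)) (Icc 0 1) t := by
    intro t ht
    have := (ContinuousLinearMap.snd ℝ (E n) (E n)).hasFDerivAt.comp_hasDerivWithinAt t (hw t ht)
    rw [jac_fd hC] at this
    exact this
  obtain ⟨D, hDd⟩ : ∃ D : ℝ → E n, ∀ t, (w t).2 + C (c t).1 (c t).2 (w t).1 = D t :=
    ⟨_, fun _ => rfl⟩
  have hD : ∀ t ∈ Icc (0 : ℝ) 1, ∃ D', HasDerivWithinAt D D' (Icc 0 1) t ∧
      D' + C (c t).1 (c t).2 (D t) = -Rm C (c t).1 (w t).1 (c t).2 (c t).2 := by
    intro t ht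
    have h1 : HasDerivWithinAt (fun r => C (c r).1) (fderiv ℝ C (c t).1 (c t).2) (Icc 0 1) t :=
      HasFDerivAt.comp_hasDerivWithinAt (E := E n →L[ℝ] E n →L[ℝ] E n) t
        (hC.smooth.differentiable (by norm_num) (c t).1).hasFDerivAt (hx t)
    have h2 := (hW t ht).add ((h1.clm_apply (hv t)).clm_apply (hJ t ht))
    have e : D = fun r => (w r).2 + C (c r).1 (c r).2 (w r).1 := funext fun r => (hDd r).symm
    refine ⟨_, by rw [e]; exact h2, ?_⟩
    rw [← hDd t]
    simp only [Rm, map_add, map_neg, add_apply, neg_apply]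
    rw [hC.dsymm (c t).1 (c t).2 (w t).1 (c t).2, hC.symm (c t).1 (w t).2 (c t).2,
      hC.symm (c t).1 (w t).1 (c t).2, hC.symm (c t).1 (w t).1 (C (c t).1 (c t).2 (c t).2)]
    abel
  have ev : ∀ t, -C (c t).1 (c t).2 (c t).2 + C (c t).1 (c t).2 (c t).2 = 0 := fun t =>
    neg_add_cancel _
  have D0 : D 0 = η := by rw [← hDd 0, w0]; simp
  have hP1 : ∀ t ∈ Icc (0 : ℝ) 1, h (c t).1 (D t) (c t).2 = h y η ξ := by
    intro t ht
    have h1 := jac_const (f := fun r => h (c r).1 (D r) (c r).2) (fun r hr => by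
      obtain ⟨D', d1, d2⟩ := hD r hr
      refine (jac_prod hh hC (hx r) d1 (hv r) d2 (ev r)).congr_deriv ?_
      simp [jac_perp hh hK]) t ht
    simp only [D0, c0] at h1
    exact h1
  have hP : ∀ t ∈ Icc (0 : ℝ) 1, h (c t).1 (w t).1 (c t).2 = h y η ξ * t := by
    intro t ht
    have h1 := jac_const (f := fun r => h (c r).1 (w r).1 (c r).2 - h y η ξ * r) (fun r hr => by
      refine ((jac_prod hh hC (hx r) (hJ r hr) (hv r) (hDd r) (ev r)).sub
        ((hasDerivWithinAt_id r _).const_mul (h y η ξ))).congr_deriv ?_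
      simp [hP1 r hr]) t ht
    simp only [w0, map_zero, zero_apply, mul_zero, sub_zero] at h1
    linarith
  have k0 : 0 < a * √(h y ξ ξ) := mul_pos ha (Real.sqrt_pos.2 r0)
  have key := pic (a * √(h y ξ ξ))
    (fun t => h (c t).1 (w t).1 (w t).1 - (h y η ξ * t) ^ 2 / h y ξ ξ)
    (fun t => h (c t).1 (D t) (w t).1 - h y η ξ ^ 2 * t / h y ξ ξ)
    (fun t => h (c t).1 (D t) (D t) - h y η ξ ^ 2 / h y ξ ξ -
      h (c t).1 (Rm C (c t).1 (w t).1 (c t).2 (c t).2) (w t).1)
    (fun t => h (c t).1 (D t) (D t) - h y η ξ ^ 2 / h y ξ ξ) k0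
    (fun t ht => by
      refine ((jac_prod hh hC (hx t) (hJ t ht) (hJ t ht) (hDd t) (hDd t)).sub
        ((((hasDerivWithinAt_id t _).const_mul (h y η ξ)).pow 2).div_const
          (h y ξ ξ))).congr_deriv ?_
      simp only [hh.symm (c t).1 (w t).1 (D t), id]
      norm_num
      ring)
    (fun t ht => by
      obtain ⟨D', d1, d2⟩ := hD t ht
      refine ((jac_prod hh hC (hx t) d1 (hJ t ht) d2 (hDd t)).sub
        (((hasDerivWithinAt_id t _).const_mul (h y η ξ ^ 2)).div_const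
          (h y ξ ξ))).congr_deriv ?_
      simp only [map_neg, neg_apply]
      ring)
    (fun t ht => by
      have h1 := hK (c t).1 (w t).1 (c t).2
      rw [hs t, hP t ht] at h1
      have e : (a * √(h y ξ ξ)) ^ 2 * (h (c t).1 (w t).1 (w t).1 - (h y η ξ * t) ^ 2 / h y ξ ξ) =
          a ^ 2 * (h (c t).1 (w t).1 (w t).1 * h y ξ ξ - (h y η ξ * t) ^ 2) := by
        rw [mul_pow, Real.sq_sqrt r0.le]
        field_simp
      simp only [e]
      linarith)
    (fun t ht l => by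
      have h1 := jac_cs hh (c t).1 (D t - l • (w t).1) (c t).2 (by rw [hs t]; exact r0)
      refine h1.trans (le_of_eq ?_)
      simp only [map_sub, map_smul, sub_apply, smul_apply, smul_eq_mul, hs t, hP t ht, hP1 t ht,
        hh.symm (c t).1 (w t).1 (D t)]
      ring)
    (by simp [w0]) (by simp [w0])
  simp only [D0, c0, mul_one] at key
  unfold mdl
  linarith

end Pool.Agent.MP_3ee8cb_gt.TB
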