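import Pool.Agent.MP_3ee8cb_gt.TB.Spec

/-! Linear equations have solutions on the unit interval. -/

namespace Pool.Agent.MP_3ee8cb_gt.TB

open Pool.Agent.MP_3ee8cb_gt.CR Set Metric
open scoped NNReal

theorem lin_ode {W : Type} [NormedAddCommGroup W] [NormedSpace ℝ W] [CompleteSpace W]
    {a : ℝ → W →L[ℝ] W} {M : ℝ} (x₀ : W) (hx₀ : ‖x₀‖ ≤ 1)
    (ha : ∀ x, ContinuousOn (fun t => a t x) (Icc 0 1))
    (hM : ∀ t ∈ Icc (0 : ℝ) 1, ‖a t‖ ≤ M) :
    ∃ Y : ℝ → W, Y 0 = x₀ ∧ ∀ t ∈ Icc (0 : ℝ) 1, HasDerivWithinAt Y (a t (Y t)) (Icc 0 1) t := by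
  have hM0 : 0 ≤ M := (norm_nonneg _).trans (hM 0 (by simp))
  set R := Real.exp M with hR
  have hR0 : 0 < R := Real.exp_pos M
  set χ : W → ℝ := fun x => max 0 (min 1 (R + 1 - ‖x‖)) with hχ
  have hχ0 : ∀ x, 0 ≤ χ x := fun x => le_max_left _ _
  have hχ1 : ∀ x, χ x ≤ 1 := fun x => max_le zero_le_one (min_le_left _ _)
  have hχl : ∀ x y, |χ x - χ y| ≤ ‖x - y‖ := fun x y => by
    refine (abs_max_sub_max_le_max _ _ _ _).trans (max_le (by simp) ?_)
    refine (abs_min_sub_min_le_max _ _ _ _).trans (max_le (by simp) ?_)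
    rw [show R + 1 - ‖x‖ - (R + 1 - ‖y‖) = ‖y‖ - ‖x‖ by ring, norm_sub_rev]
    exact abs_norm_sub_norm_le _ _
  have hχb : ∀ x, χ x * ‖x‖ ≤ R + 1 := fun x => by
    rcases le_total ‖x‖ (R + 1) with h | h
    · nlinarith [hχ0 x, hχ1 x, norm_nonneg x]
    · have : χ x = 0 := max_eq_left ((min_le_right _ _).trans (by linarith))
      rw [this]; linarith
  have hap : ∀ t ∈ Icc (0 : ℝ) 1, ∀ x, ‖a t x‖ ≤ ‖x‖ * M := fun t ht x => by
    rw [mul_comm]; exact (a t).le_of_opNorm_le (hM t ht) x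
  set L : ℝ≥0 := ⟨(R + 1) * M, by positivity⟩ with hL
  have hpl : IsPicardLindelof (fun t x => a t (χ x • x)) (⟨0, by simp⟩ : Icc (0 : ℝ) 1) x₀
      L 0 L ⟨((R + 1) * M + 2) * M, by positivity⟩ := by
    refine ⟨fun t ht => LipschitzOnWith.of_dist_le_mul fun x hx y _ => ?_,
      fun x _ => ha _, fun t ht x _ => ?_, by simp⟩
    · have hx' : ‖x‖ ≤ (R + 1) * M + 1 := by
        have h1 : ‖x - x₀‖ ≤ (R + 1) * M := mem_closedBall_iff_norm.1 hx
        linarith [norm_le_norm_sub_add x x₀]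
      rw [dist_eq_norm, dist_eq_norm, ← map_sub]
      have e : χ x • x - χ y • y = (χ x - χ y) • x + χ y • (x - y) := by module
      have h1 : ‖χ x • x - χ y • y‖ ≤ ((R + 1) * M + 2) * ‖x - y‖ := by
        rw [e]
        refine (norm_add_le _ _).trans ?_
        rw [norm_smul, norm_smul, Real.norm_eq_abs, Real.norm_eq_abs, abs_of_nonneg (hχ0 y)]
        have h2 := mul_le_mul (hχl x y) hx' (norm_nonneg _) (norm_nonneg _)
        nlinarith [hχ1 y, norm_nonneg (x - y)]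
      refine (hap t ht _).trans ((mul_le_mul_of_nonneg_right h1 hM0).trans_eq ?_)
      show _ = ((R + 1) * M + 2) * M * ‖x - y‖
      ring
    · refine (hap t ht _).trans ?_
      rw [norm_smul, Real.norm_eq_abs, abs_of_nonneg (hχ0 x)]
      exact mul_le_mul_of_nonneg_right (hχb x) hM0
  obtain ⟨Y, hY0, hY⟩ := hpl.exists_eq_forall_mem_Icc_hasDerivWithinAt₀
  have hb := norm_le_gronwallBound_of_norm_deriv_right_le (f := Y) (δ := 1) (K := M) (ε := 0)
    (fun t ht => (hY t ht).continuousWithinAt)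
    (fun t ht => (hY t (Ico_subset_Icc_self ht)).mono_of_mem_nhdsWithin
      (Icc_mem_nhdsGE_of_mem ht)) (by rw [show Y 0 = x₀ from hY0]; exact hx₀)
    (fun t ht => by
      refine (hap t (Ico_subset_Icc_self ht) _).trans ?_
      rw [norm_smul, Real.norm_eq_abs, abs_of_nonneg (hχ0 _), add_zero, mul_comm M]
      exact mul_le_mul_of_nonneg_right (mul_le_of_le_one_left (norm_nonneg _) (hχ1 _)) hM0)
  refine ⟨Y, hY0, fun t ht => ?_⟩
  have h1 : ‖Y t‖ ≤ R := by
    refine (hb t ht).trans ?_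
    rw [gronwallBound_ε0, one_mul]
    exact Real.exp_le_exp.2 (by nlinarith [ht.1, ht.2])
  have h2 : χ (Y t) = 1 := by
    simp only [hχ]; rw [min_eq_left (by linarith), max_eq_right zero_le_one]
  simpa only [h2, one_smul] using hY t ht

theorem lin : SLIN := by
  intro V _ _ _ A hA
  haveI : CompleteSpace V := FiniteDimensional.complete ℝ V
  have hc : Continuous fun t => ContinuousLinearMap.compL ℝ V V V (A t) :=
    (ContinuousLinearMap.compL ℝ V V V).continuous.comp hA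
  obtain ⟨M, hM⟩ := (isCompact_Icc (a := (0 : ℝ)) (b := 1)).exists_bound_of_continuousOn
    hc.continuousOn
  obtain ⟨Y, h0, hY⟩ := lin_ode (a := fun t => ContinuousLinearMap.compL ℝ V V V (A t))
    (ContinuousLinearMap.id ℝ V) ContinuousLinearMap.norm_id_le
    (fun x => (hc.clm_apply continuous_const).continuousOn) hM
  exact ⟨Y, h0, fun t ht => by simpa only [ContinuousLinearMap.compL_apply] using hY t ht⟩

end Pool.Agent.MP_3ee8cb_gt.TB
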