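import Pool.Agent.MP_3ee8cb_gt.TB.Spec

/-! The model function of constant curvature in polar coordinates. -/

namespace Pool.Agent.MP_3ee8cb_gt.TB

open Pool.Agent.MP_3ee8cb_gt.CR Set

variable {n : ℕ}

theorem mod_nn {h : Met n} (hr : Riem h) (y u : E n) : 0 ≤ h y u u := by
  by_cases hu : u = 0
  · simp [hu]
  · exact (hr.pos y u hu).le

theorem mod_cs {h : Met n} (hr : Riem h) (y u v : E n) : h y u v ^ 2 ≤ h y u u * h y v v := by
  have key : ∀ x : ℝ, 0 ≤ h y u u * (x * x) + (2 * h y u v) * x + h y v v := by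
    intro x
    have := mod_nn hr y (x • u + v)
    simp only [map_add, map_smul, add_apply, smul_apply,
      smul_eq_mul, hr.symm y v u] at this
    nlinarith [this]
  have := discrim_le_zero key
  unfold discrim at this
  nlinarith [this]

theorem mod_kap {h : Met n} (hr : Riem h) (y e₁ ξ : E n) (he : h y e₁ e₁ = 1) :
    |h y ξ e₁ / √(h y ξ ξ)| ≤ 1 := by
  have h1 := mod_cs hr y ξ e₁
  rw [he, mul_one] at h1
  rw [abs_div, abs_of_nonneg (Real.sqrt_nonneg _)]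
  exact div_le_one_of_le₀ (Real.abs_le_sqrt h1) (Real.sqrt_nonneg _)

theorem mod_psd (N K m x y : ℝ) (hN : 0 ≤ N) (hK : 0 ≤ K) (hm : m ^ 2 ≤ N * K) :
    0 ≤ x ^ 2 * N + 2 * x * y * m + y ^ 2 * K := by
  have h1 : (2 * x * y * m) ^ 2 ≤ (x ^ 2 * N + y ^ 2 * K) ^ 2 := by
    nlinarith [sq_nonneg (x ^ 2 * N - y ^ 2 * K),
      mul_le_mul_of_nonneg_left hm (sq_nonneg (x * y))]
  have := abs_le_of_sq_le_sq' h1 (by positivity)
  linarith [this.1]

theorem mod_alg (S C s c κ ρ w m N : ℝ) (h1 : C ^ 2 = S ^ 2 + 1) (h2 : c ^ 2 = s ^ 2 + 1)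
    (hN : 0 ≤ N) (hK : 0 ≤ 1 - κ ^ 2) (hm : m ^ 2 ≤ N * (1 - κ ^ 2)) :
    (ρ * (S * c - κ * C * s) - w * s * m) ^ 2 ≤
      ((C * c - κ * S * s) ^ 2 - 1) * (ρ ^ 2 + w ^ 2 * N) := by
  have e : (C * c - κ * S * s) ^ 2 - 1 = (S * c - κ * C * s) ^ 2 + s ^ 2 * (1 - κ ^ 2) := by
    have : (C * c - κ * S * s) ^ 2 - (S * c - κ * C * s) ^ 2 =
      (C ^ 2 - S ^ 2) * (c ^ 2 - κ ^ 2 * s ^ 2) := by ring
    rw [h1, h2] at this
    linarith
  rw [e]
  generalize S * c - κ * C * s = U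
  generalize 1 - κ ^ 2 = K at hK hm
  have h3 := mod_psd N K m (U * w) (s * ρ) hN hK hm
  have h4 := mul_le_mul_of_nonneg_left hm (sq_nonneg (w * s))
  nlinarith [h3, h4]

theorem mod_qc (h : Met n) (y : E n) : Continuous fun ξ : E n => h y ξ ξ :=
  (h y).continuous₂.comp (continuous_id.prodMk continuous_id)

theorem mod_cont {h : Met n} (hr : Riem h) (y e₁ : E n) (a t : ℝ) (he : h y e₁ e₁ = 1) :
    Continuous (Zf h y a t e₁) := by
  have hq : Continuous fun ξ : E n => √(h y ξ ξ) := (mod_qc h y).sqrt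
  have hs : Continuous fun ξ : E n => Real.sinh (a * √(h y ξ ξ)) :=
    Real.continuous_sinh.comp (continuous_const.mul hq)
  have hp : Continuous fun ξ : E n => h y ξ e₁ := ((h y).flip e₁).continuous
  have hg : Continuous fun ξ : E n => h y ξ e₁ / √(h y ξ ξ) * Real.sinh (a * √(h y ξ ξ)) := by
    rw [continuous_iff_continuousAt]
    intro ξ
    by_cases hξ : ξ = 0
    · subst hξ
      have h0 : Filter.Tendsto (fun ξ : E n => |Real.sinh (a * √(h y ξ ξ))|) (nhds 0) (nhds 0) := by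
        have := hs.abs.tendsto 0
        simpa using this
      have : Filter.Tendsto (fun ξ : E n => h y ξ e₁ / √(h y ξ ξ) * Real.sinh (a * √(h y ξ ξ)))
          (nhds 0) (nhds 0) := by
        refine squeeze_zero_norm (fun ξ => ?_) h0
        rw [Real.norm_eq_abs, abs_mul]
        exact mul_le_of_le_one_left (abs_nonneg _) (mod_kap hr y e₁ ξ he)
      unfold ContinuousAt
      simpa using this
    · exact (hp.continuousAt.div hq.continuousAt
        (Real.sqrt_pos.2 (hr.pos y ξ hξ)).ne').mul hs.continuousAt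
  exact ((Real.continuous_cosh.comp (continuous_const.mul hq)).mul continuous_const).sub
    (hg.mul continuous_const)

theorem mod_one {h : Met n} (hr : Riem h) (y e₁ : E n) (a t : ℝ) (ha : 0 < a) (ht : 0 ≤ t)
    (he : h y e₁ e₁ = 1) (ξ : E n) : 1 ≤ Zf h y a t e₁ ξ := by
  unfold Zf
  have hk := (abs_le.1 (mod_kap hr y e₁ ξ he)).2
  have h1 : 0 ≤ Real.sinh (a * √(h y ξ ξ)) := Real.sinh_nonneg_iff.2 (by positivity)
  have h2 : 0 ≤ Real.sinh (a * t) := Real.sinh_nonneg_iff.2 (by positivity)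
  have h3 := Real.one_le_cosh (a * √(h y ξ ξ) - a * t)
  rw [Real.cosh_sub] at h3
  have h4 := mul_le_mul_of_nonneg_right hk (mul_nonneg h1 h2)
  nlinarith [h3, h4]

theorem mod_base {h : Met n} (y e₁ : E n) (a t : ℝ) (ht : 0 ≤ t) (he : h y e₁ e₁ = 1) :
    Zf h y a t e₁ (t • e₁) = 1 := by
  have h1 : √(h y (t • e₁) (t • e₁)) = t := by
    have : h y (t • e₁) (t • e₁) = t ^ 2 := by
      simp only [map_smul, smul_apply, smul_eq_mul, he]; ring
    rw [this, Real.sqrt_sq ht]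
  unfold Zf
  rw [h1]
  rcases ht.eq_or_lt with rfl | ht'
  · simp
  · simp only [map_smul, smul_apply, smul_eq_mul, he, mul_one]
    rw [div_self ht'.ne']
    nlinarith [Real.cosh_sq (a * t)]

theorem mod_perp {h : Met n} (hr : Riem h) (y e₁ ξ η : E n) (r : ℝ) (hr0 : r ≠ 0)
    (hrr : h y ξ ξ = r ^ 2) (he : h y e₁ e₁ = 1) :
    0 ≤ h y η η - (h y η ξ / r) ^ 2 ∧ 0 ≤ 1 - (h y ξ e₁ / r) ^ 2 ∧
      (h y η e₁ - h y η ξ / r * (h y ξ e₁ / r)) ^ 2 ≤
        (h y η η - (h y η ξ / r) ^ 2) * (1 - (h y ξ e₁ / r) ^ 2) := by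
  have a1 : h y (η - (h y η ξ / r ^ 2) • ξ) (η - (h y η ξ / r ^ 2) • ξ) =
      h y η η - (h y η ξ / r) ^ 2 := by
    simp only [map_sub, map_smul, sub_apply, smul_apply,
      smul_eq_mul, hr.symm y ξ η, hrr]
    field_simp
    ring
  have a2 : h y (e₁ - (h y ξ e₁ / r ^ 2) • ξ) (e₁ - (h y ξ e₁ / r ^ 2) • ξ) =
      1 - (h y ξ e₁ / r) ^ 2 := by
    simp only [map_sub, map_smul, sub_apply, smul_apply,
      smul_eq_mul, hr.symm y e₁ ξ, hrr, he]
    field_simp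
    ring
  have a3 : h y (η - (h y η ξ / r ^ 2) • ξ) (e₁ - (h y ξ e₁ / r ^ 2) • ξ) =
      h y η e₁ - h y η ξ / r * (h y ξ e₁ / r) := by
    simp only [map_sub, map_smul, sub_apply, smul_apply,
      smul_eq_mul, hrr]
    field_simp
    ring
  refine ⟨a1 ▸ mod_nn hr y _, a2 ▸ mod_nn hr y _, ?_⟩
  rw [← a1, ← a2, ← a3]
  exact mod_cs hr y _ _

theorem mod_der {h : Met n} (hr : Riem h) (y e₁ : E n) (a t : ℝ) (ha : 0 < a)
    (he : h y e₁ e₁ = 1) (ξ : E n) (hξ : ξ ≠ 0) : ∃ L : E n →L[ℝ] ℝ,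
    HasFDerivAt (Zf h y a t e₁) L ξ ∧
      ∀ η, L η ^ 2 ≤ a ^ 2 * (Zf h y a t e₁ ξ ^ 2 - 1) * mdl h y a ξ η := by
  have hpos := hr.pos y ξ hξ
  have hq := (h y).hasFDerivAt_of_bilinear (hasFDerivAt_id ξ) (hasFDerivAt_id ξ)
  have hs := hq.sqrt hpos.ne'
  have hr0 : 0 < √(h y ξ ξ) := Real.sqrt_pos.2 hpos
  have hp : HasFDerivAt (fun ξ : E n => h y ξ e₁) ((h y).flip e₁) ξ := ((h y).flip e₁).hasFDerivAt
  have hi := (hasDerivAt_inv hr0.ne').comp_hasFDerivAt ξ hs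
  have hZ := (((hs.const_mul a).cosh).mul_const (Real.cosh (a * t))).sub
    (((hp.mul hi).mul (hs.const_mul a).sinh).mul_const (Real.sinh (a * t)))
  refine ⟨_, hZ.congr_of_eventuallyEq (Filter.Eventually.of_forall fun x => ?_), fun η => ?_⟩
  · simp [Zf, div_eq_mul_inv]
  · have hrr : h y ξ ξ = √(h y ξ ξ) ^ 2 := (Real.sq_sqrt hpos.le).symm
    obtain ⟨b1, b2, b3⟩ := mod_perp hr y e₁ ξ η _ hr0.ne' hrr he
    have key := mod_alg (Real.sinh (a * √(h y ξ ξ))) (Real.cosh (a * √(h y ξ ξ)))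
      (Real.sinh (a * t)) (Real.cosh (a * t)) (h y ξ e₁ / √(h y ξ ξ)) (h y η ξ / √(h y ξ ξ))
      (Real.sinh (a * √(h y ξ ξ)) / (a * √(h y ξ ξ))) _ _ (Real.cosh_sq _) (Real.cosh_sq _)
      b1 b2 b3
    have hm : mdl h y a ξ η = (h y η ξ / √(h y ξ ξ)) ^ 2 +
        (Real.sinh (a * √(h y ξ ξ)) / (a * √(h y ξ ξ))) ^ 2 *
          (h y η η - (h y η ξ / √(h y ξ ξ)) ^ 2) := by
      unfold mdl
      rw [div_pow (h y η ξ), ← hrr]
    rw [hm, mul_assoc]
    refine le_trans (le_of_eq ?_) (mul_le_mul_of_nonneg_left key (sq_nonneg a))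
    rw [← mul_pow]
    congr 1
    simp only [sub_apply, smul_apply,
      add_apply, smul_eq_mul, ContinuousLinearMap.precompR_apply,
      ContinuousLinearMap.precompL_apply, ContinuousLinearMap.compL_apply,
      ContinuousLinearMap.comp_apply, ContinuousLinearMap.id_apply, id,
      ContinuousLinearMap.flip_apply, Function.comp, Pi.mul_apply, hr.symm y ξ η]
    generalize √(h y ξ ξ) = r at hr0
    field_simp
    ring

theorem mod_ : SMOD := fun _ _ y a t e₁ hr ha ht he =>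
  ⟨mod_cont hr y e₁ a t he, mod_one hr y e₁ a t ha ht he, mod_base y e₁ a t ht he,
    mod_der hr y e₁ a t ha he⟩

end Pool.Agent.MP_3ee8cb_gt.TB
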