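import Pool.Agent.MP_3ee8cb_gt.TB.Spec
import Pool.Agent.MP_3ee8cb_gt.CR.RUNI

/-! The geodesic flow solves the second order equation with the Christoffel symbols. -/

namespace Pool.Agent.MP_3ee8cb_gt.TB

open Pool.Agent.MP_3ee8cb_gt.CR Set

variable {n : ℕ}

theorem ode_inv {g : Met n} (hg : Riem g) : ContDiff ℝ 1 fun x => (g x).inverse := by
  have h1 : ContDiff ℝ 1 g := hg.smooth.of_le (by norm_num)
  rw [contDiff_iff_contDiffAt]
  intro x
  obtain ⟨e, he⟩ := uni_inv hg x
  have h3 : ContDiffAt ℝ 1 ContinuousLinearMap.inverse (g x) := he ▸ contDiffAt_map_inverse e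
  exact h3.comp x h1.contDiffAt

theorem ode_main {h : Met n} {C : Chr n} (hr : Riem h) (hC : IsChr h C) {c v : ℝ → E n} {t : ℝ}
    (hc : HasDerivAt c (v t) t)
    (hv : ∀ w, HasDerivAt (fun s => h (c s) (v s) w) (fderiv ℝ h (c t) w (v t) (v t) / 2) t) :
    HasDerivAt v (-C (c t) (v t) (v t)) t := by
  have hP : HasDerivAt (fun s => h (c s) (v s)) (uni_q (fderiv ℝ h (c t)) (v t)) t := by
    rw [← hasDerivWithinAt_univ]
    refine uni_weak fun w => ?_
    rw [uni_q_apply]
    exact (hv w).hasDerivWithinAt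
  have hI : DifferentiableAt ℝ (fun s => (h (c s)).inverse) t :=
    (((ode_inv hr).differentiable (by norm_num)) (c t)).comp t hc.differentiableAt
  have hd : DifferentiableAt ℝ v t := by
    have : v = fun s => (h (c s)).inverse (h (c s) (v s)) :=
      funext fun s => (uni_cancel hr _ _).symm
    rw [this]
    exact hI.clm_apply hP.differentiableAt
  have hb := hd.hasDerivAt
  have hh : HasDerivAt (fun s => h (c s)) (fderiv ℝ h (c t) (v t)) t :=
    ((hr.smooth.differentiable (by norm_num)) (c t)).hasFDerivAt.comp_hasDerivAt t hc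
  have key : ∀ w, h (c t) (deriv v t + C (c t) (v t) (v t)) w = 0 := by
    intro w
    have h1 : HasDerivAt (fun s => h (c s) (v s) w)
        ((fderiv ℝ h (c t) (v t) (v t) + h (c t) (deriv v t)) w) t := by
      have := (hh.clm_apply hb).clm_apply (hasDerivAt_const t w)
      simpa using this
    have h2 := h1.unique (hv w)
    have h3 := hC (c t) (v t) (v t) w
    simp only [add_apply, map_add] at h2 ⊢
    linarith
  have h0 : deriv v t + C (c t) (v t) (v t) = 0 := by
    by_contra hne
    exact (hr.pos (c t) _ hne).ne' (key _)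
  rw [← eq_neg_of_add_eq_zero_left h0]
  exact hb

theorem ode : SODE := by
  intro n h C Ψ hr hC _ hf p t
  exact (hf.vel p t).prodMk
    (ode_main (c := fun s => (Ψ s p).1.1) (v := fun s => (Ψ s p).1.2) hr hC (hf.vel p t)
      (hf.geo p t))

end Pool.Agent.MP_3ee8cb_gt.TB
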