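import Pool.Agent.MP_3ee8cb_gt.TB.Spec

/-! Lifting of segments through a map whose derivatives do not shrink vectors. -/

namespace Pool.Agent.MP_3ee8cb_gt.TB

open Pool.Agent.MP_3ee8cb_gt.CR Set Filter Topology

variable {n : ℕ}

theorem ray_low (b : E n →L[ℝ] E n →L[ℝ] ℝ) (hb : ∀ v, v ≠ 0 → 0 < b v v) :
    ∃ c : ℝ, 0 < c ∧ ∀ v, c * ‖v‖ ^ 2 ≤ b v v := by
  obtain ⟨c, hc, h⟩ := (isCompact_sphere (0 : E n) 1).exists_forall_le'
    (f := fun v => b v v) (a := 0) (by fun_prop) fun v hv => hb v (by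
      rintro rfl
      simp at hv)
  refine ⟨c, hc, fun v => ?_⟩
  by_cases hv : v = 0
  · simp [hv]
  have h0 : 0 < ‖v‖ := norm_pos_iff.2 hv
  have h1 := h (‖v‖⁻¹ • v) (by simp [norm_smul, h0.ne'])
  simp only [map_smul, smul_apply, smul_eq_mul] at h1
  have h2 : ‖v‖⁻¹ * (‖v‖⁻¹ * b v v) * ‖v‖ ^ 2 = b v v := by field_simp
  rw [← h2]
  exact mul_le_mul_of_nonneg_right h1 (sq_nonneg _)

theorem ray_const {h : Met n} (hr : Riem h) (y : E n) {K : Set (E n)} (hK : IsCompact K) :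
    ∃ L : ℝ, 0 < L ∧ ∀ z ∈ K, ∀ η u : E n, h y η η ≤ h z u u → ‖η‖ ≤ L * ‖u‖ := by
  obtain ⟨c, hc, h0⟩ := ray_low (h y) (hr.pos y)
  obtain ⟨C, hC⟩ := hK.exists_bound_of_continuousOn (f := h) hr.smooth.continuous.continuousOn
  refine ⟨|C| / c + 1, by positivity, fun z hz η u hu => ?_⟩
  have h1 : h z u u ≤ |C| * ‖u‖ ^ 2 := by
    have h2 := (h z).le_opNorm₂ u u
    have h3 : ‖h z‖ * ‖u‖ * ‖u‖ ≤ |C| * ‖u‖ ^ 2 := by
      rw [mul_assoc, ← sq]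
      exact mul_le_mul_of_nonneg_right ((hC z hz).trans (le_abs_self C)) (sq_nonneg _)
    exact (le_abs_self _).trans (h2.trans h3)
  have h4 : ‖η‖ ^ 2 ≤ |C| / c * ‖u‖ ^ 2 := by
    rw [div_mul_eq_mul_div, le_div_iff₀' hc]
    exact (h0 η).trans (hu.trans h1)
  have h5 : 0 ≤ |C| / c := by positivity
  refine abs_le_of_sq_le_sq' (h4.trans ?_) (by positivity) |>.2
  rw [mul_pow]
  exact mul_le_mul_of_nonneg_right (by nlinarith) (sq_nonneg _)

theorem ray_loc {h : Met n} (hr : Riem h) {y : E n} {e : E n → E n} (he : ExdP h y e) :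
    IsLocalHomeomorph e := fun ξ => by
  obtain ⟨D, hD, h1⟩ := he ξ
  have hi : Function.Injective (D : E n →ₗ[ℝ] E n) := (injective_iff_map_eq_zero _).2 fun η h0 => by
    by_contra h2
    have h3 := h1 η
    have h4 : D η = 0 := h0
    rw [h4, map_zero] at h3
    exact absurd (hr.pos y η h2) (not_lt.2 h3)
  have hD' : HasStrictFDerivAt e
      ((LinearEquiv.ofInjectiveEndo _ hi).toContinuousLinearEquiv : E n →L[ℝ] E n) ξ := by
    have h5 : ((LinearEquiv.ofInjectiveEndo _ hi).toContinuousLinearEquiv : E n →L[ℝ] E n) = D :=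
      ContinuousLinearMap.ext fun _ => rfl
    rwa [h5]
  exact ⟨hD'.toOpenPartialHomeomorph e, hD'.mem_toOpenPartialHomeomorph_source, rfl⟩

/-- Local inverses on balls of a fixed radius. -/
theorem ray_unif {e : E n → E n} (he : IsLocalHomeomorph e) {K : Set (E n)} (hK : IsCompact K) :
    ∃ δ : ℝ, 0 < δ ∧ ∀ ξ ∈ K, ∃ φ : OpenPartialHomeomorph (E n) (E n),
      ξ ∈ φ.source ∧ e = φ ∧ Metric.ball (e ξ) δ ⊆ φ.target := by
  refine hK.induction_on (p := fun K => ∃ δ : ℝ, 0 < δ ∧ ∀ ξ ∈ K,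
    ∃ φ : OpenPartialHomeomorph (E n) (E n),
      ξ ∈ φ.source ∧ e = φ ∧ Metric.ball (e ξ) δ ⊆ φ.target) ⟨1, one_pos, fun _ h => h.elim⟩
    (fun s t hst ⟨δ, h0, h⟩ => ⟨δ, h0, fun ξ hξ => h ξ (hst hξ)⟩) ?_ ?_
  · rintro s t ⟨δ, h0, h⟩ ⟨δ', h0', h'⟩
    refine ⟨min δ δ', lt_min h0 h0', fun ξ hξ => hξ.elim (fun hξ => ?_) fun hξ => ?_⟩
    · obtain ⟨φ, h1, h2, h3⟩ := h ξ hξ
      exact ⟨φ, h1, h2, (Metric.ball_subset_ball (min_le_left _ _)).trans h3⟩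
    · obtain ⟨φ, h1, h2, h3⟩ := h' ξ hξ
      exact ⟨φ, h1, h2, (Metric.ball_subset_ball (min_le_right _ _)).trans h3⟩
  · intro x _
    obtain ⟨φ, h1, h2⟩ := he x
    obtain ⟨r, hr, h3⟩ := Metric.isOpen_iff.1 φ.open_target (e x) (h2 ▸ φ.map_source h1)
    refine ⟨φ.source ∩ e ⁻¹' Metric.ball (e x) (r / 2), mem_nhdsWithin_of_mem_nhds
      (inter_mem (φ.open_source.mem_nhds h1) (he.continuous.continuousAt.preimage_mem_nhds
        (Metric.ball_mem_nhds _ (half_pos hr)))), r / 2, half_pos hr, fun ξ hξ =>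
      ⟨φ, hξ.1, h2, fun z hz => h3 ?_⟩⟩
    have h4 := dist_triangle z (e ξ) (e x)
    have h5 : dist (e ξ) (e x) < r / 2 := hξ.2
    have h6 : dist z (e ξ) < r / 2 := hz
    exact Metric.mem_ball.2 (by linarith)

/-- A lift of the segment has bounded speed. -/
theorem ray_bound {e : E n → E n} {p v : E n} {L s : ℝ} (hL : 0 < L) (hs : 0 ≤ s)
    (he : ∀ ξ, ∀ u ∈ Icc 0 s, e ξ = p + u • v → ∃ D : E n →L[ℝ] E n, HasFDerivAt e D ξ ∧
      ∀ η, ‖η‖ ≤ L * ‖D η‖) {g : ℝ → E n} (hg : ContinuousOn g (Icc 0 s)) (h0 : g 0 = 0)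
    (h1 : ∀ u ∈ Icc 0 s, e (g u) = p + u • v) : ‖g s‖ ≤ 2 * L * ‖v‖ * s := by
  refine image_le_of_liminf_slope_right_le_deriv_boundary (f := fun u => ‖g u‖)
    (B := fun u => 2 * L * ‖v‖ * u) (B' := fun _ => 2 * L * ‖v‖) hg.norm (by simp [h0])
    (by fun_prop) (fun x _ => ?_) (fun x hx r hr => Eventually.frequently ?_) ⟨hs, le_rfl⟩
  · simpa using ((hasDerivAt_id x).const_mul (2 * L * ‖v‖)).hasDerivWithinAt
  have hx' : x ∈ Icc 0 s := Ico_subset_Icc_self hx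
  obtain ⟨D, hD, h2⟩ := he (g x) x hx' (h1 x hx')
  have hm : Icc 0 s ∈ 𝓝[>] x := mem_of_superset (Ioc_mem_nhdsGT hx.2) fun z hz =>
    ⟨hx.1.trans hz.1.le, hz.2⟩
  have ht : Tendsto g (𝓝[>] x) (𝓝 (g x)) := (hg x hx').tendsto.mono_left
    (nhdsWithin_le_iff.2 hm)
  have h3 := ht.eventually (hD.isLittleO.def (c := (2 * L)⁻¹) (by positivity))
  filter_upwards [h3, hm, self_mem_nhdsWithin] with z h4 hz hxz
  have h5 : 0 < z - x := sub_pos.2 hxz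
  have h6 : e (g z) - e (g x) = (z - x) • v := by
    rw [h1 z hz, h1 x hx', sub_smul]
    abel
  rw [h6] at h4
  have h7 : ‖D (g z - g x)‖ ≤ (z - x) * ‖v‖ + (2 * L)⁻¹ * ‖g z - g x‖ := by
    have h8 := norm_sub_le ((z - x) • v) ((z - x) • v - D (g z - g x))
    rw [sub_sub_cancel, norm_smul, Real.norm_of_nonneg h5.le] at h8
    linarith
  have h9 := (h2 (g z - g x)).trans (mul_le_mul_of_nonneg_left h7 hL.le)
  have h10 : L * ((2 * L)⁻¹ * ‖g z - g x‖) = ‖g z - g x‖ / 2 := by field_simp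
  rw [mul_add, h10] at h9
  have h11 := norm_sub_norm_le (g z) (g x)
  rw [slope_def_field]
  refine lt_of_le_of_lt ((div_le_iff₀ h5).2 ?_) hr
  nlinarith

/-- Extension of a lift. -/
theorem ray_ext {e : E n → E n} {γ : ℝ → E n} (hγ : Continuous γ) {s s' : ℝ} (hs : 0 ≤ s)
    (hss : s ≤ s') {g : ℝ → E n} (hg : ContinuousOn g (Icc 0 s)) (h0 : g 0 = 0)
    (h1 : ∀ u ∈ Icc 0 s, e (g u) = γ u) (φ : OpenPartialHomeomorph (E n) (E n))
    (h2 : g s ∈ φ.source) (h3 : e = φ) (h4 : ∀ u ∈ Icc s s', γ u ∈ φ.target) :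
    ∃ g' : ℝ → E n, ContinuousOn g' (Icc 0 s') ∧ g' 0 = 0 ∧ ∀ u ∈ Icc 0 s', e (g' u) = γ u := by
  refine ⟨fun u => if u ≤ s then g u else φ.symm (γ u), ?_, (if_pos hs).trans h0,
    fun u hu => ?_⟩
  · rw [← Icc_union_Icc_eq_Icc hs hss]
    refine ContinuousOn.union_of_isClosed (hg.congr fun u hu => if_pos hu.2)
      ((φ.continuousOn_symm.comp hγ.continuousOn h4).congr fun u hu => ?_) isClosed_Icc isClosed_Icc
    by_cases h : u ≤ s
    · obtain rfl : u = s := le_antisymm h hu.1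
      rw [if_pos h, Function.comp_apply, ← h1 u ⟨hs, le_rfl⟩, h3, φ.left_inv h2]
    · exact if_neg h
  · dsimp only
    by_cases h : u ≤ s
    · rw [if_pos h, h1 u ⟨hu.1, h⟩]
    · rw [if_neg h, h3, φ.right_inv (h4 u ⟨(not_le.1 h).le, hu.2⟩)]

theorem ray : SRAY := by
  intro n h y e hr he
  have hl := ray_loc hr he
  refine ⟨hl, fun x => ?_⟩
  obtain ⟨v, hv⟩ : ∃ v, v = x - e 0 := ⟨_, rfl⟩
  rw [← hv]
  have hγ : Continuous fun u : ℝ => e 0 + u • v := by fun_prop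
  obtain ⟨L, hL, h1⟩ := ray_const hr y ((isCompact_Icc (a := (0 : ℝ)) (b := 1)).image hγ)
  obtain ⟨δ, hδ, h2⟩ := ray_unif hl (isCompact_closedBall (0 : E n) (2 * L * ‖v‖))
  obtain ⟨τ, hτ, h3⟩ : ∃ τ : ℝ, 0 < τ ∧ τ * ‖v‖ < δ := by
    refine ⟨δ / (‖v‖ + 1), by positivity, ?_⟩
    rw [div_mul_eq_mul_div, div_lt_iff₀ (by positivity)]
    linarith
  have key : ∀ k : ℕ, ∀ s ∈ Icc (0 : ℝ) 1, s ≤ k * τ → ∃ g : ℝ → E n, ContinuousOn g (Icc 0 s) ∧
      g 0 = 0 ∧ ∀ u ∈ Icc 0 s, e (g u) = e 0 + u • v := by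
    intro k
    induction k with
    | zero =>
      intro s hs hk
      refine ⟨fun _ => 0, continuousOn_const, rfl, fun u hu => ?_⟩
      have h4 : u = 0 := le_antisymm (by simpa using hu.2.trans hk) hu.1
      rw [h4, zero_smul, add_zero]
    | succ k ih =>
      intro s hs hk
      have a0 : 0 ≤ max 0 (s - τ) := le_max_left _ _
      have a1 : max 0 (s - τ) ≤ s := max_le hs.1 (by linarith)
      have a2 : s - τ ≤ max 0 (s - τ) := le_max_right _ _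
      have a3 : max 0 (s - τ) ≤ k * τ := max_le (by positivity) (by push_cast at hk; linarith)
      generalize max 0 (s - τ) = s₀ at *
      obtain ⟨g, g1, g2, g3⟩ := ih s₀ ⟨a0, a1.trans hs.2⟩ a3
      have b := ray_bound hL a0 (fun ξ u hu hξ => (he ξ).imp fun D hD => ⟨hD.1.hasFDerivAt,
        fun η => h1 _ ⟨u, ⟨hu.1, hu.2.trans (a1.trans hs.2)⟩, hξ.symm⟩ _ _ (hD.2 η)⟩) g1 g2 g3
      obtain ⟨φ, f1, f2, f3⟩ := h2 (g s₀) (mem_closedBall_zero_iff.2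
        (b.trans (mul_le_of_le_one_right (by positivity) (a1.trans hs.2))))
      refine ray_ext hγ a0 a1 g1 g2 g3 φ f1 f2 fun u hu => f3 ?_
      rw [g3 s₀ ⟨a0, le_rfl⟩, mem_ball_iff_norm, add_sub_add_left_eq_sub, ← sub_smul, norm_smul,
        Real.norm_of_nonneg (sub_nonneg.2 hu.1)]
      exact lt_of_le_of_lt (mul_le_mul_of_nonneg_right (by linarith [hu.2]) (norm_nonneg _)) h3
  obtain ⟨k, hk⟩ := exists_nat_ge (1 / τ)
  exact key k 1 ⟨zero_le_one, le_rfl⟩ ((div_le_iff₀ hτ).1 hk)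

end Pool.Agent.MP_3ee8cb_gt.TB
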