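import Pool.Agent.MP_3ee8cb_gt.TB.Spec

namespace Pool.Agent.MP_3ee8cb_gt.TB

open Pool.Agent.MP_3ee8cb_gt.CR Set

theorem sec : SSEC := by
  intro n e ⟨hl, hg⟩
  choose g gc g0 ge using hg
  have sep : IsSeparatedMap e := T2Space.isSeparatedMap e
  let f : C(unitInterval × E n, E n) :=
    ⟨fun z => e 0 + (z.1 : ℝ) • (z.2 - e 0), by fun_prop⟩
  let G : unitInterval × E n → E n := fun z => g z.2 z.1
  have hG : Continuous G := by
    refine hl.continuous_lift sep f (funext fun z => ge z.2 z.1 z.1.2) ?_ fun x => ?_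
    · have : (fun x => G (0, x)) = fun _ => (0 : E n) := funext fun x => g0 x
      rw [this]; exact continuous_const
    · exact (gc x).comp_continuous continuous_subtype_val fun t => t.2
  have hc : Continuous fun x => g x 1 := hG.comp (Continuous.prodMk_right (1 : unitInterval))
  have hr : ∀ x, e (g x 1) = x := fun x => by
    rw [ge x 1 ⟨zero_le_one, le_rfl⟩]; simp
  refine ⟨fun x => g x 1, hc, fun ξ => ?_, hr⟩
  have := sep.eq_of_comp_eq hl.isLocallyInjective (g₁ := fun ξ => g (e ξ) 1) (g₂ := id)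
    (hc.comp hl.continuous) continuous_id (funext fun ξ => hr (e ξ)) (g (e 0) 1)
    (by simp only [id, hr])
  exact congr_fun this ξ

end Pool.Agent.MP_3ee8cb_gt.TB
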