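import Pool.Agent.MP_3ee8cb_gt.TB.Spec

/-! Strict differentiability of the time-one map of a differential equation. -/

namespace Pool.Agent.MP_3ee8cb_gt.TB

open Pool.Agent.MP_3ee8cb_gt.CR Set

theorem str_gron {V : Type} [NormedAddCommGroup V] [NormedSpace ℝ V] {y y' : ℝ → V} {K e δ : ℝ}
    (hK : 0 < K) (he : 0 ≤ e) (hδ : ‖y 0‖ ≤ δ)
    (hy : ∀ t ∈ Icc (0 : ℝ) 1, HasDerivWithinAt y (y' t) (Icc 0 1) t)
    (hb : ∀ t ∈ Icc (0 : ℝ) 1, ‖y' t‖ ≤ K * ‖y t‖ + e) :
    ∀ t ∈ Icc (0 : ℝ) 1, ‖y t‖ ≤ (δ + e / K) * Real.exp K := by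
  intro t ht
  have h := norm_le_gronwallBound_of_norm_deriv_right_le (f := y) (f' := y') (a := 0) (b := 1)
    (fun s hs => (hy s hs).continuousWithinAt)
    (fun s hs => (hy s (Ico_subset_Icc_self hs)).mono_of_mem_nhdsWithin
      (Icc_mem_nhdsGE_of_mem hs)) hδ (fun s hs => hb s (Ico_subset_Icc_self hs)) t ht
  rw [gronwallBound_of_K_ne_0 hK.ne', sub_zero] at h
  have h0 : 0 ≤ δ := (norm_nonneg _).trans hδ
  have h1 : Real.exp (K * t) ≤ Real.exp K :=
    Real.exp_le_exp.2 (mul_le_of_le_one_right hK.le ht.2)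
  have h2 : 0 ≤ e / K := div_nonneg he hK.le
  have h3 := mul_le_mul_of_nonneg_left h1 h0
  have h4 := mul_le_mul_of_nonneg_left h1 h2
  simp only at h
  nlinarith

theorem str : SSTR := by
  intro P V _ _ _ _ _ F X ι p₀ B M hF hX h0 hB hM0 hM
  have : ProperSpace V := FiniteDimensional.proper_real V
  have hD : Continuous (fderiv ℝ F) := hF.continuous_fderiv one_ne_zero
  have hdiff : Differentiable ℝ F := hF.differentiable one_ne_zero
  set S : Set V := Metric.closedBall 0 (B + 1) with hS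
  have hSc : IsCompact S := isCompact_closedBall _ _
  obtain ⟨K₀, hK₀⟩ := hSc.exists_bound_of_continuousOn hD.continuousOn
  set K : ℝ := |K₀| + 1 with hKd
  have hK : 0 < K := by positivity
  have hKb : ∀ x ∈ S, ‖fderiv ℝ F x‖ ≤ K := fun x hx =>
    (hK₀ x hx).trans ((le_abs_self _).trans (by linarith))
  have hin : ∀ p, ‖p - p₀‖ ≤ 1 → ∀ t ∈ Icc (0 : ℝ) 1, X p t ∈ S := fun p hp t ht =>
    mem_closedBall_zero_iff.2 ((hB p hp t ht).trans (by linarith))
  set L : ℝ := ‖ι‖ * Real.exp K with hL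
  have hL0 : 0 ≤ L := by positivity
  have hlip : ∀ p q, ‖p - p₀‖ ≤ 1 → ‖q - p₀‖ ≤ 1 → ∀ t ∈ Icc (0 : ℝ) 1,
      ‖X p t - X q t‖ ≤ L * ‖p - q‖ := by
    intro p q hp hq t ht
    have h := str_gron (y := fun s => X p s - X q s) (y' := fun s => F (X p s) - F (X q s))
      (e := 0) (δ := ‖ι‖ * ‖p - q‖) hK le_rfl (by rw [h0]; exact ι.le_opNorm _)
      (fun s _ => ((hX p s).sub (hX q s)).hasDerivWithinAt)
      (fun s hs => by
        rw [add_zero]
        exact (convex_closedBall _ _).norm_image_sub_le_of_norm_fderiv_le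
          (fun x _ => hdiff x) hKb (hin q hq s hs) (hin p hp s hs)) t ht
    refine h.trans (le_of_eq ?_)
    rw [hL]
    ring
  have hp0 : ‖p₀ - p₀‖ ≤ 1 := by simp
  rw [hasStrictFDerivAt_iff_isLittleO, Asymptotics.isLittleO_iff]
  intro c hc
  set ε : ℝ := c * K / ((L + 1) * Real.exp K) with hε
  have hε0 : 0 < ε := by positivity
  obtain ⟨δ, hδ, huc⟩ := Metric.uniformContinuousOn_iff.1
    (hSc.uniformContinuousOn_of_continuous hD.continuousOn) ε hε0
  set ρ : ℝ := min (δ / 2) 1 with hρ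
  have hρ0 : 0 < ρ := lt_min (by linarith) one_pos
  have hρ1 : ρ ≤ 1 := min_le_right _ _
  have hρδ : ρ < δ := (min_le_left _ _).trans_lt (by linarith)
  set r : ℝ := min 1 (ρ / (L + 1)) with hr
  have hr0 : 0 < r := lt_min one_pos (by positivity)
  have hnear : ∀ p, ‖p - p₀‖ ≤ r → ∀ t ∈ Icc (0 : ℝ) 1,
      X p t ∈ Metric.closedBall (X p₀ t) ρ := by
    intro p hp t ht
    rw [mem_closedBall_iff_norm]
    have h1 := hlip p p₀ (hp.trans (min_le_left _ _)) hp0 t ht
    have h2 : ‖p - p₀‖ * (L + 1) ≤ ρ :=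
      (le_div_iff₀ (by positivity)).1 (hp.trans (min_le_right _ _))
    have h3 := norm_nonneg (p - p₀)
    nlinarith
  refine Filter.eventually_of_mem (prod_mem_nhds (Metric.closedBall_mem_nhds p₀ hr0)
    (Metric.closedBall_mem_nhds p₀ hr0)) ?_
  rintro ⟨p, q⟩ ⟨hp, hq⟩
  rw [mem_closedBall_iff_norm] at hp hq
  have hp1 : ‖p - p₀‖ ≤ 1 := hp.trans (min_le_left _ _)
  have hq1 : ‖q - p₀‖ ≤ 1 := hq.trans (min_le_left _ _)
  have h := str_gron (y := fun s => X p s - X q s - M s (ι (p - q)))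
    (y' := fun s => F (X p s) - F (X q s) - fderiv ℝ F (X p₀ s) (M s (ι (p - q))))
    (e := ε * (L * ‖p - q‖)) (δ := 0) hK (by positivity) (by simp [h0, hM0])
    (fun s hs => by
      have h1 := (hM s hs).clm_apply (hasDerivWithinAt_const s (Icc (0 : ℝ) 1) (ι (p - q)))
      simp only [map_zero, add_zero, ContinuousLinearMap.comp_apply] at h1
      exact ((hX p s).sub (hX q s)).hasDerivWithinAt.sub h1)
    (fun s hs => by
      have hc0 : X p₀ s ∈ S := hin p₀ hp0 s hs
      have h1 : ‖F (X p s) - F (X q s) - fderiv ℝ F (X p₀ s) (X p s - X q s)‖ ≤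
          ε * ‖X p s - X q s‖ := by
        refine (convex_closedBall (X p₀ s) ρ).norm_image_sub_le_of_norm_fderiv_le'
          (fun x _ => hdiff x) (fun x hx => ?_) (hnear q hq s hs) (hnear p hp s hs)
        have hxS : x ∈ S := by
          rw [mem_closedBall_iff_norm] at hx
          have := norm_sub_norm_le x (X p₀ s)
          have := hB p₀ hp0 s hs
          exact mem_closedBall_zero_iff.2 (by linarith)
        rw [← dist_eq_norm]
        exact (huc x hxS _ hc0 ((Metric.mem_closedBall.1 hx).trans_lt hρδ)).le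
      have h2 : F (X p s) - F (X q s) - fderiv ℝ F (X p₀ s) (M s (ι (p - q))) =
          fderiv ℝ F (X p₀ s) (X p s - X q s - M s (ι (p - q))) +
            (F (X p s) - F (X q s) - fderiv ℝ F (X p₀ s) (X p s - X q s)) := by
        rw [map_sub (fderiv ℝ F (X p₀ s)) (X p s - X q s)]
        abel
      rw [h2]
      refine (norm_add_le _ _).trans (add_le_add ?_ (h1.trans ?_))
      · exact (fderiv ℝ F (X p₀ s)).le_of_opNorm_le (hKb _ hc0) _
      · exact mul_le_mul_of_nonneg_left (hlip p q hp1 hq1 s hs) hε0.le)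
    1 ⟨zero_le_one, le_rfl⟩
  refine h.trans ?_
  have h5 : (0 + ε * (L * ‖p - q‖) / K) * Real.exp K = c * ‖p - q‖ * (L / (L + 1)) := by
    rw [hε]
    field_simp
    ring
  rw [h5]
  exact mul_le_of_le_one_right (by positivity) ((div_le_one (by positivity)).2 (by linarith))

end Pool.Agent.MP_3ee8cb_gt.TB
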