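import Pool.Agent.MP_3ee8cb_gt.TB.Spec

namespace Pool.Agent.MP_3ee8cb_gt.TB

open Pool.Agent.MP_3ee8cb_gt.CR Set

theorem tst_off {n : ℕ} (h : Met n) (u : E n → ℝ) (y : E n) (hr : Riem h) (hu : Continuous u)
    (hd : ∀ x, x ≠ y → ∃ L : E n →L[ℝ] ℝ, HasFDerivAt u L x ∧ ∀ η, L η ≤ √(h x η η))
    (a b : E n) (hy : ∀ s ∈ Ioo (0 : ℝ) 1, a + s • (b - a) ≠ y) : u b - u a ≤ seg h a b := by
  have hl : Continuous fun s : ℝ => a + s • (b - a) := by fun_prop
  have hc : Continuous h := hr.smooth.continuous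
  have hφ : Continuous fun s : ℝ => √(h (a + s • (b - a)) (b - a) (b - a)) :=
    (((hc.comp hl).clm_apply continuous_const).clm_apply continuous_const).sqrt
  have key := intervalIntegral.sub_le_integral_of_hasDeriv_right_of_le
    (g := fun s : ℝ => u (a + s • (b - a)))
    (g' := fun s : ℝ => fderiv ℝ u (a + s • (b - a)) (b - a))
    (φ := fun s : ℝ => √(h (a + s • (b - a)) (b - a) (b - a))) (a := 0) (b := 1) zero_le_one
    (hu.comp hl).continuousOn ?_ hφ.continuousOn.integrableOn_Icc ?_
  · simpa [seg] using key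
  · intro s hs
    obtain ⟨L, hL, -⟩ := hd _ (hy s hs)
    have h1 : HasDerivAt (fun s : ℝ => a + s • (b - a)) (b - a) s := by
      simpa using ((hasDerivAt_id s).smul_const (b - a)).const_add a
    rw [hL.fderiv]
    exact (hL.comp_hasDerivAt s h1).hasDerivWithinAt
  · intro s hs
    obtain ⟨L, hL, hb⟩ := hd _ (hy s hs)
    rw [hL.fderiv]
    exact hb _

theorem tst : STST := by
  intro n h u y hr hD hu hd a b
  by_cases hy : ∀ s ∈ Ioo (0 : ℝ) 1, a + s • (b - a) ≠ y
  · exact tst_off h u y hr hu hd a b hy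
  push Not at hy
  obtain ⟨s, hs, hsy⟩ := hy
  by_cases hab : b - a = 0
  · have : b = a := sub_eq_zero.1 hab
    subst this
    have := hD.le_seg b b
    rw [hD.refl] at this
    simpa using this
  have hadd := hD.add a b s hs.1.le hs.2.le
  rw [hsy] at hadd
  have h1 := tst_off h u y hr hu hd a y (by
    intro r hr' e
    have e1 : y - a = s • (b - a) := by rw [← hsy]; abel
    have e2 : (1 - r) • (y - a) = 0 := by
      rw [sub_smul, one_smul, sub_eq_zero]
      exact (eq_sub_of_add_eq' e).symm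
    rw [e1, smul_smul, smul_eq_zero] at e2
    rcases e2 with e2 | e2
    · have := mul_pos (sub_pos.2 hr'.2) hs.1
      linarith
    · exact hab e2)
  have h2 := tst_off h u y hr hu hd y b (by
    intro r hr' e
    have e1 : b - y = (1 - s) • (b - a) := by rw [← hsy, sub_smul, one_smul]; abel
    have e2 : r • (b - y) = 0 := by simpa using e
    rw [e1, smul_smul, smul_eq_zero] at e2
    rcases e2 with e2 | e2
    · have := mul_pos hr'.1 (sub_pos.2 hs.2)
      linarith
    · exact hab e2)
  linarith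

end Pool.Agent.MP_3ee8cb_gt.TB
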