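import Pool.Agent.MP_3ee8cb_gt.TB.Spec

namespace Pool.Agent.MP_3ee8cb_gt.TB

open Pool.Agent.MP_3ee8cb_gt.CR Set Filter Topology

theorem pic_mono {f f' : ℝ → ℝ} {L : ℝ} (hc : ContinuousOn f (Ioc 0 1))
    (hd : ∀ t ∈ Ioo (0 : ℝ) 1, HasDerivAt f (f' t) t) (h0 : ∀ t ∈ Ioo (0 : ℝ) 1, 0 ≤ f' t)
    (hl : Tendsto f (𝓝[>] 0) (𝓝 L)) : ∀ t ∈ Ioc (0 : ℝ) 1, L ≤ f t := by
  have hm : MonotoneOn f (Ioc 0 1) := by
    refine monotoneOn_of_deriv_nonneg (convex_Ioc 0 1) hc ?_ ?_
    · rw [interior_Ioc]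
      exact fun t ht => (hd t ht).differentiableAt.differentiableWithinAt
    · rw [interior_Ioc]
      intro t ht
      rw [(hd t ht).deriv]
      exact h0 t ht
  intro t ht
  refine le_of_tendsto hl ?_
  filter_upwards [Ioc_mem_nhdsGT ht.1] with s hs
  exact hm ⟨hs.1, hs.2.trans ht.2⟩ ht hs.2

theorem pic_slope {f : ℝ → ℝ} {d : ℝ} (h : HasDerivWithinAt f d (Icc 0 1) 0) (h0 : f 0 = 0) :
    Tendsto (fun t => f t / t) (𝓝[>] 0) (𝓝 d) := by
  have h1 := hasDerivWithinAt_iff_tendsto_slope.1 h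
  rw [Icc_sdiff_left, nhdsWithin_Ioc_eq_nhdsGT zero_lt_one] at h1
  refine h1.congr fun t => ?_
  rw [slope_def_field, h0, sub_zero, sub_zero]

theorem pic_sinh (k t : ℝ) :
    HasDerivAt (fun s => Real.sinh (k * s)) (k * Real.cosh (k * t)) t := by
  have := ((hasDerivAt_id t).const_mul k).sinh
  simpa [mul_comm] using this

theorem pic_cosh (k t : ℝ) :
    HasDerivAt (fun s => Real.cosh (k * s)) (k * Real.sinh (k * t)) t := by
  have := ((hasDerivAt_id t).const_mul k).cosh
  simpa [mul_comm] using this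

theorem pic : SPIC := by
  intro k F B B₁ Q hk hF hB hQ hl F0 B0
  have m0 : (0 : ℝ) ∈ Icc (0 : ℝ) 1 := ⟨le_rfl, zero_le_one⟩
  have hS : ∀ t : ℝ, 0 < t → 0 < Real.sinh (k * t) := fun t ht =>
    Real.sinh_pos_iff.2 (mul_pos hk ht)
  have cF : ContinuousOn F (Icc 0 1) := fun t ht => (hF t ht).continuousWithinAt
  have cB : ContinuousOn B (Icc 0 1) := fun t ht => (hB t ht).continuousWithinAt
  have dF : ∀ t ∈ Ioo (0 : ℝ) 1, HasDerivAt F (2 * B t) t := fun t ht =>
    (hF t (Ioo_subset_Icc_self ht)).hasDerivAt (Icc_mem_nhds ht.1 ht.2)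
  have dB : ∀ t ∈ Ioo (0 : ℝ) 1, HasDerivAt B (B₁ t) t := fun t ht =>
    (hB t (Ioo_subset_Icc_self ht)).hasDerivAt (Icc_mem_nhds ht.1 ht.2)
  have cS : Continuous fun t : ℝ => Real.sinh (k * t) := by fun_prop
  have cC : Continuous fun t : ℝ => Real.cosh (k * t) := by fun_prop
  have lS : Tendsto (fun t => Real.sinh (k * t) / t) (𝓝[>] 0) (𝓝 k) := by
    have := pic_slope (pic_sinh k 0).hasDerivWithinAt (by simp)
    simpa using this
  have lC : Tendsto (fun t => Real.cosh (k * t)) (𝓝[>] 0) (𝓝 1) := by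
    have := (cC.tendsto 0).mono_left (nhdsWithin_le_nhds (s := Ioi 0))
    simpa using this
  have lS0 : Tendsto (fun t => Real.sinh (k * t)) (𝓝[>] 0) (𝓝 0) := by
    have := (cS.tendsto 0).mono_left (nhdsWithin_le_nhds (s := Ioi 0))
    simpa using this
  have lF : Tendsto (fun t => F t / t) (𝓝[>] 0) (𝓝 0) := by
    have := pic_slope (hF 0 m0) F0
    simpa [B0] using this
  have lB : Tendsto (fun t => B t / t) (𝓝[>] 0) (𝓝 (B₁ 0)) := pic_slope (hB 0 m0) B0
  have le0 : 𝓝[>] (0 : ℝ) ≤ 𝓝[Icc 0 1] 0 := by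
    rw [← nhdsWithin_Ioc_eq_nhdsGT zero_lt_one]
    exact nhdsWithin_mono _ Ioc_subset_Icc_self
  have lB0 : Tendsto B (𝓝[>] 0) (𝓝 0) := by
    have := (cB 0 m0).tendsto.mono_left le0
    rwa [B0] at this
  have lF0 : Tendsto F (𝓝[>] 0) (𝓝 0) := by
    have := (cF 0 m0).tendsto.mono_left le0
    rwa [F0] at this
  have hH : ∀ t ∈ Ioc (0 : ℝ) 1,
      0 ≤ B t - k * Real.cosh (k * t) / Real.sinh (k * t) * F t := by
    refine pic_mono (f' := fun t => B₁ t - ((k * (k * Real.sinh (k * t)) * Real.sinh (k * t) -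
      k * Real.cosh (k * t) * (k * Real.cosh (k * t))) / Real.sinh (k * t) ^ 2 * F t +
      k * Real.cosh (k * t) / Real.sinh (k * t) * (2 * B t))) ?_ ?_ ?_ ?_
    · refine (cB.mono Ioc_subset_Icc_self).sub (ContinuousOn.mul ?_ (cF.mono Ioc_subset_Icc_self))
      exact ((cC.const_mul k).continuousOn).div cS.continuousOn fun t ht => (hS t ht.1).ne'
    · intro t ht
      exact (dB t ht).sub ((((pic_cosh k t).const_mul k).div (pic_sinh k t)
        (hS t ht.1).ne').mul (dF t ht))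
    · intro t ht
      have h1 := hQ t (Ioo_subset_Icc_self ht)
      have h2 := hl t (Ioo_subset_Icc_self ht) (k * Real.cosh (k * t) / Real.sinh (k * t))
      have h3 : (k * (k * Real.sinh (k * t)) * Real.sinh (k * t) -
          k * Real.cosh (k * t) * (k * Real.cosh (k * t))) / Real.sinh (k * t) ^ 2 =
          k ^ 2 - (k * Real.cosh (k * t) / Real.sinh (k * t)) ^ 2 := by
        have := (hS t ht.1).ne'
        field_simp
      rw [h3]
      nlinarith
    · have h1 := lB0.sub (((lC.const_mul k).div lS hk.ne').mul lF)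
      simp only [mul_zero, sub_zero] at h1
      refine h1.congr' ?_
      filter_upwards [self_mem_nhdsWithin] with t ht
      have h2 : (0 : ℝ) < t := ht
      have := (hS t h2).ne'
      simp only [Pi.div_apply]
      field_simp
  have dS2 : ∀ t : ℝ, HasDerivAt (fun s => Real.sinh (k * s) ^ 2)
      (2 * Real.sinh (k * t) * (k * Real.cosh (k * t))) t := fun t => by
    have := (pic_sinh k t).fun_pow 2
    simpa using this
  have lG : Tendsto (fun t => F t / Real.sinh (k * t) ^ 2) (𝓝[>] 0) (𝓝 (B₁ 0 / k ^ 2)) := by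
    refine HasDerivAt.lhopital_zero_right_on_Ioo zero_lt_one dF (fun t _ => dS2 t) ?_ lF0 ?_ ?_
    · intro t ht
      have := hS t ht.1
      have := Real.cosh_pos (k * t)
      positivity
    · simpa using lS0.pow 2
    · have h1 := lB.div (lS.mul (lC.const_mul k)) (by positivity)
      have h3 : k * (k * 1) = k ^ 2 := by ring
      rw [h3] at h1
      refine h1.congr' ?_
      filter_upwards [self_mem_nhdsWithin] with t ht
      have h2 : (0 : ℝ) < t := ht
      have := (hS t h2).ne'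
      have := (Real.cosh_pos (k * t)).ne'
      simp only [Pi.div_apply]
      field_simp
  have hG := pic_mono (f := fun t => F t / Real.sinh (k * t) ^ 2)
    (f' := fun t => (2 * B t * Real.sinh (k * t) ^ 2 -
      F t * (2 * Real.sinh (k * t) * (k * Real.cosh (k * t)))) / (Real.sinh (k * t) ^ 2) ^ 2)
    ((cF.mono Ioc_subset_Icc_self).div (cS.pow 2).continuousOn
      fun t ht => (pow_pos (hS t ht.1) 2).ne')
    (fun t ht => (dF t ht).div (dS2 t) (pow_pos (hS t ht.1) 2).ne')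
    (fun t ht => by
      have h1 := hH t (Ioo_subset_Ioc_self ht)
      have h2 := hS t ht.1
      have h3 : (2 * B t * Real.sinh (k * t) ^ 2 -
          F t * (2 * Real.sinh (k * t) * (k * Real.cosh (k * t)))) / (Real.sinh (k * t) ^ 2) ^ 2 =
          2 * (B t - k * Real.cosh (k * t) / Real.sinh (k * t) * F t) / Real.sinh (k * t) ^ 2 := by
        field_simp
      rw [h3]
      positivity) lG 1 ⟨zero_lt_one, le_rfl⟩
  have h1 := hQ 0 m0
  rw [F0, mul_zero, add_zero] at h1
  have h2 := hS 1 zero_lt_one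
  simp only [mul_one] at hG h2
  rw [div_le_div_iff₀ (by positivity) (by positivity)] at hG
  rw [div_pow, div_mul_eq_mul_div, div_le_iff₀ (by positivity)]
  nlinarith [mul_le_mul_of_nonneg_left h1 (sq_nonneg (Real.sinh k))]

end Pool.Agent.MP_3ee8cb_gt.TB
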