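import Pool.Agent.MP_3ee8cb_gt.TB.RGAM
import Pool.Agent.MP_3ee8cb_gt.TB.RODE
import Pool.Agent.MP_3ee8cb_gt.TB.REXP
import Pool.Agent.MP_3ee8cb_gt.TB.RLIN
import Pool.Agent.MP_3ee8cb_gt.TB.RSTR
import Pool.Agent.MP_3ee8cb_gt.TB.RPIC
import Pool.Agent.MP_3ee8cb_gt.TB.RJAC
import Pool.Agent.MP_3ee8cb_gt.TB.RDER
import Pool.Agent.MP_3ee8cb_gt.TB.RRAY
import Pool.Agent.MP_3ee8cb_gt.TB.RSEC
import Pool.Agent.MP_3ee8cb_gt.TB.RMOD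
import Pool.Agent.MP_3ee8cb_gt.TB.RTST
import Pool.Agent.MP_3ee8cb_gt.TB.RHIN

/-! The hinge comparison from an upper bound on the sectional curvature. -/

namespace Pool.Agent.MP_3ee8cb_gt.TB

open Pool.Agent.MP_3ee8cb_gt.CR

theorem hinge (n : ℕ) (h : Met n) (Λ : Type) [Group Λ] [MulAction Λ (E n)]
    (Ψ : ℝ → UT h → UT h) (a : ℝ) (r : RP h Λ Ψ) (ha : 0 < a) (hc : CurvLe h a) :
    HingeP h Ψ a :=
  hinge_of gam ode exp_ (der lin str (jac pic)) ray sec mod_ (hin tst) n h Λ Ψ a r ha hc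

end Pool.Agent.MP_3ee8cb_gt.TB
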